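import Pool.Agent.Lib.MP_813db1_ag.VH.Cov
import Pool.Agent.Lib.MP_813db1_ag.VH.KbA
import Pool.Agent.Lib.MP_813db1_ag.VH.RBoG

/-! The form of a polarised datum is exact on the covering space. -/

namespace Pool.Agent.Lib.MP_813db1_ag.VH.E1

open Pool.Agent.Lib.MP_813db1_ag.HS Pool.Agent.Lib.MP_813db1_ag.AS F12
open Complex Matrix Filter Topology Set
open scoped ContDiff ComplexOrder

variable {ι r : Type} [Fintype ι] [DecidableEq ι] [Fintype r] [DecidableEq r]

/-- the real bilinear form of a matrix. -/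
noncomputable def bil (Q : Mat r) : V r →L[ℝ] V r →L[ℝ] ℝ :=
  LinearMap.toContinuousLinearMap (LinearMap.toContinuousLinearMap.toLinearMap ∘ₗ
    LinearMap.mk₂ ℝ (fun a b : V r => (a ⬝ᵥ Q *ᵥ b).re / 4)
      (fun a a' b => by rw [add_dotProduct, add_re, add_div])
      (fun c a b => by rw [smul_dotProduct, smul_re, smul_eq_mul, smul_eq_mul, mul_div_assoc])
      (fun a b b' => by rw [mulVec_add, dotProduct_add, add_re, add_div])
      (fun c a b => by
        rw [mulVec_smul, dotProduct_smul, smul_re, smul_eq_mul, smul_eq_mul, mul_div_assoc]))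

theorem bil_apply (Q : Mat r) (a b : V r) : bil Q a b = (a ⬝ᵥ Q *ᵥ b).re / 4 := rfl

theorem bil_pol {H Q : Mat r} (h1 : Hᵀ = H) (h2 : H.map star = H) (q1 : Qᵀ = -Q)
    (q2 : Q.map star = Q) {a b : V r} (ha : Q *ᵥ a = I • H *ᵥ a) (hb : Q *ᵥ b = I • H *ᵥ b) :
    bil Q (a + star a) (b + star b) - bil Q (b + star b) (a + star a) = (ipV H a b).im := by
  have st : ∀ {A : Mat r}, A.map star = A → ∀ v : V r, A *ᵥ star v = star (A *ᵥ v) :=
    fun {A} hA v => by
      funext i
      conv_lhs => rw [← hA]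
      simp [mulVec, dotProduct]
  have sy : ∀ (A : Mat r) (u v : V r), u ⬝ᵥ A *ᵥ v = v ⬝ᵥ Aᵀ *ᵥ u := fun A u v => by
    rw [dotProduct_mulVec, mulVec_transpose, dotProduct_comm]
  have sd : ∀ u v : V r, star u ⬝ᵥ star v = star (u ⬝ᵥ v) := fun u v => by
    simp [dotProduct]
  have z : a ⬝ᵥ Q *ᵥ b = 0 := by
    have e1 := sy Q a b
    rw [q1, neg_mulVec, dotProduct_neg, ha, dotProduct_smul, sy H b a, h1, ← dotProduct_smul,
      ← hb] at e1
    linear_combination e1 / 2
  have w : a ⬝ᵥ Q *ᵥ star b = -I * ipV H a b := by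
    rw [st q2, hb, star_smul, ← st h2, dotProduct_smul, smul_eq_mul, star_def, conj_I]
    simp [ipV, dotProduct, mulVec, Finset.mul_sum, mul_assoc, mul_left_comm]
  have w' : star a ⬝ᵥ Q *ᵥ b = star (a ⬝ᵥ Q *ᵥ star b) := by
    rw [← sd, ← st q2, star_star]
  have z' : star a ⬝ᵥ Q *ᵥ star b = 0 := by rw [st q2, sd, z, star_zero]
  rw [bil_apply, bil_apply, sy Q (b + star b), q1, neg_mulVec, dotProduct_neg, mulVec_add,
    add_dotProduct, dotProduct_add, dotProduct_add, z, z', w', w]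
  simp
  ring

theorem fd_vec {x : V ι → V r} {z : V ι} (hx : DifferentiableAt ℝ x z)
    (rx : ∀ w, star (x w) = x w) (u : V ι) :
    fderiv ℝ x z u = ∑ k, u k • dV x k z + star (∑ k, u k • dV x k z) := by
  funext i
  rw [show fderiv ℝ x z u i = fderiv ℝ (fun w => x w i) z u from by
    rw [(hasFDerivAt_pi'.1 hx.hasFDerivAt i).fderiv]; rfl, fderiv_eq_dz, Finset.sum_add_distrib]
  simp only [Pi.add_apply, Pi.star_apply, Finset.sum_apply, Pi.smul_apply, smul_eq_mul, star_sum,
    star_mul']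
  congr 1
  · exact Finset.sum_congr rfl fun k _ => mul_comm _ _
  · refine Finset.sum_congr rfl fun k _ => ?_
    rw [mul_comm]
    exact congrArg _ (congrFun (dVb_real (.of_forall rx) k) i)

variable {X Y G : Type} [TopologicalSpace X] [TopologicalSpace Y] [Group G] [MulAction G Y]
  [ChartedSpace (ι → ℂ) X] {M : Atl ι X} {p : Y → X}

theorem exPol (hat : atlas (ι → ℂ) X ⊆ M.A) (hq : IsQuotientCoveringMap p G) {D : Dt M p G r}
    {Q : Mat r} {x : Y → V r} {g ξ : X → Mat ι} (sm : Sm M p x) (pol : D.Pol Q x) (xi : D.Xi x ξ)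
    (hk : M.IsK fun y => g y + ξ y) (hE : ExF M g p) : ExF M (fun y => g y + ξ y) p := by
  obtain ⟨K, hK, α, a1, a2⟩ := hE
  have hp := lh hq
  refine ⟨kah hat hk, fun _ _ _ _ => rfl, fun e y =>
    α e y + (bil Q (x y)).comp (fderiv ℝ (x ∘ sh hp y e) (e (p y))), fun e he e' he' y h1 h2 => ?_,
    fun e he z hz s s1 s2 => ?_⟩
  · have T : Two M p e _ _ e' _ _ := ⟨hat he, e.map_source h1, (sh_self hp h1).1, hat he',
      e'.map_source h2, (sh_self hp h2).1, (sh_self hp h1).2.trans (sh_self hp h2).2.symm⟩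
    beta_reduce
    rw [ContinuousLinearMap.add_comp, ← a1 e he e' he' y h1 h2, (T.comp hp x).fderiv_eq,
      fderiv_comp _ (by rw [T.pt]; exact (sm _ T.he' _ T.hz' _ T.hs').differentiableAt (by simp))
        (T.an.differentiableAt.restrictScalars ℝ), T.pt, ContinuousLinearMap.comp_assoc]
  · have hs : Sec p e z s := ⟨s1, s2⟩
    obtain ⟨b1, b2⟩ := a2 e he z hz s s1 s2
    have c := sm e (hat he) z hz s hs
    have ev : (fun w => α e (s w) + (bil Q (x (s w))).comp
        (fderiv ℝ (x ∘ sh hp (s w) e) (e (p (s w))))) =ᶠ[𝓝 z]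
        fun w => α e (s w) + (bil Q ((x ∘ s) w)).comp (fderiv ℝ (x ∘ s) w) := by
      filter_upwards [hs.ev hp hz, e.open_target.eventually_mem hz] with w h1 h2
      rw [sec_pt h1, e.right_inv h2, ((h1.eq hp h2).fun_comp x).fderiv_eq]
      rfl
    have c1 : ContDiffAt ℝ ∞ (fderiv ℝ (x ∘ s)) z := c.fderiv_right (by norm_cast)
    have c2 : ContDiffAt ℝ ∞ (fun w => bil Q ((x ∘ s) w)) z := (bil Q).contDiff.contDiffAt.comp z c
    refine ⟨(b1.add (c2.clm_comp c1)).congr_of_eventuallyEq ev, fun u v => ?_⟩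
    have d0 := c.differentiableAt (by simp)
    have d := (b1.differentiableAt (by simp)).hasFDerivAt.fun_add
      (((bil Q).hasFDerivAt.comp z d0.hasFDerivAt).clm_comp
        (c1.differentiableAt (by simp)).hasFDerivAt)
    have sy := (c.isSymmSndFDerivAt (by simp; norm_cast)).eq u v
    have cr : ∀ u : V ι, Q *ᵥ ∑ k, u k • dV (x ∘ s) k z =
        I • D.H (s z) *ᵥ ∑ k, u k • dV (x ∘ s) k z := fun u => by
      rw [← mulVec_smul, Finset.smul_sum]
      simp only [smul_comm I, ← pol.cr e (hat he) z hz s hs, Dt.J, ← mulVec_smul, ← mulVec_sum,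
        mulVec_mulVec, mul_nonsing_inv_cancel_left _ _ (D.det_ne _).isUnit]
    have al := bil_pol (D.sym (s z)) (D.reH _) pol.alt pol.re (cr u) (cr v)
    rw [← fd_vec d0 (fun w => pol.rx _), ← fd_vec d0 fun w => pol.rx _] at al
    have e1 : (kah hat hk).g e z = K.g e z + xiL (D.H ∘ s) (x ∘ s) z := by
      rw [← hK e he z hz, ← xi e (hat he) z hz s hs]
      exact congrFun (RepA.repF_add M g ξ e) z
    have e2 : ipV (D.H (s z)) (∑ k, u k • dV (x ∘ s) k z) (∑ k, v k • dV (x ∘ s) k z) =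
        ∑ i, ∑ j, xiL (D.H ∘ s) (x ∘ s) z i j * u i * star (v j) := by
      rw [BoGA.ipV_sum]
      exact Finset.sum_congr rfl fun i _ => Finset.sum_congr rfl fun j _ => by
        simp only [xiL, of_apply, smul_eq_mul, Function.comp_apply]
        ring
    rw [ev.fderiv_eq, (show fderiv ℝ (fun w => α e (s w) + (bil Q ((x ∘ s) w)).comp
      (fderiv ℝ (x ∘ s) w)) z = _ from d.fderiv), e1]
    simp only [Matrix.add_apply, add_mul, Finset.sum_add_distrib, add_im, ← b2, ← e2, ← al]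
    simp [sy]
    ring

end Pool.Agent.Lib.MP_813db1_ag.VH.E1
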