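import Pool.Agent.Lib.MP_813db1_ag.VH.E1.Pol
import Pool.Agent.Lib.MP_813db1_ag.VH.RFam
import Pool.Agent.Lib.MP_813db1_ag.VH.RPow
import Pool.Agent.Lib.MP_813db1_ag.VH.RStage

/-! Families of twisted Einstein metrics with a small Kaehler perturbation. -/

namespace Pool.Agent.Lib.MP_813db1_ag.VH.E1

open Pool.Agent.Lib.MP_813db1_ag.HS Pool.Agent.Lib.MP_813db1_ag.AS
open MeasureTheory Complex Matrix Filter Topology Set
open scoped ContDiff ComplexOrder

variable {ι X : Type} [Fintype ι] [DecidableEq ι] [TopologicalSpace X] [MeasurableSpace X]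
  {M : Atl ι X} {g σ0 σ ζ : X → Mat ι} {μ : Measure X} {u : ℝ → X → ℝ} {h : ℝ → X → Mat ι}

/-- a family of twisted Einstein metrics in the classes `K + σ + ee s • g + s ζ`. -/
structure Fe (M : Atl ι X) (g : X → Mat ι) (μ : Measure X) (σ ζ : X → Mat ι) (u : ℝ → X → ℝ)
    (h : ℝ → X → Mat ι) : Prop where
  kg : M.IsK g
  vol : M.IsVol g μ
  cσ : M.ClF σ
  pσ : ∀ x, (σ x).PosSemidef
  cζ : M.ClF ζ
  pζ : ∀ x, (ζ x).PosSemidef
  pos : ∀ s > (0 : ℝ), 0 < vl g μ fun x => -M.ricF g x + (σ x + (s : ℂ) • ζ x)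
  fm : ∀ s ∈ Ioc (0 : ℝ) 1, ∃ u' h',
    Fm M g μ (fun x => σ x + (ee s : ℂ) • g x) ζ u' h' ∧ u' s = u s ∧ h' s = h s

namespace Fe

variable (F : Fe M g μ σ ζ u h) {s : ℝ}
include F

theorem eq (hs : s ∈ Ioc (0 : ℝ) 1) (x : X) : h s x =
    -M.ricF g x + σ x + (ee s : ℂ) • g x + (s : ℂ) • ζ x + M.ddc (u s) x := by
  obtain ⟨u', h', k, e1, e2⟩ := F.fm s hs
  rw [← e1, ← e2, k.eq]
  abel

theorem ck (s : ℝ) (hs : s ∈ Ioc (0 : ℝ) 1) : M.Ck ∞ (u s) := by
  obtain ⟨u', h', k, e1, -⟩ := F.fm s hs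
  exact e1 ▸ k.ck s hs

theorem k (s : ℝ) (hs : s ∈ Ioc (0 : ℝ) 1) : M.IsK (h s) := by
  obtain ⟨u', h', k, -, e2⟩ := F.fm s hs
  exact e2 ▸ k.k s hs

theorem rt (s : ℝ) (hs : s ∈ Ioc (0 : ℝ) 1) (x : X) : rat (h s) g x = Real.exp (u s x) := by
  obtain ⟨u', h', k, e1, e2⟩ := F.fm s hs
  exact e1 ▸ e2 ▸ k.rt s hs x

theorem ric (s : ℝ) (hs : s ∈ Ioc (0 : ℝ) 1) (x : X) :
    M.ricF (h s) x = -h s x + (σ x + (ee s : ℂ) • g x + (s : ℂ) • ζ x) := by
  obtain ⟨u', h', k, -, e2⟩ := F.fm s hs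
  exact e2 ▸ k.ric s hs x

theorem cl : M.ClF fun x => -M.ricF g x + σ x :=
  (AY.repA' ι X M).clF_add _ _ (by
    simpa using (AY.repA' ι X M).clF_smul (-1) _ ((AY.repB' ι X M).ric_cl g F.kg)) F.cσ

end Fe

variable [T2Space X] [CompactSpace X] [BorelSpace X]

/-- positivity of the volume on the segment to the nef canonical class. -/
theorem vpos (hg : M.IsK g) (hμ : M.IsVol g μ) (hN : NefA M g) (c0 : M.ClF σ0)
    (p0 : ∀ x, (σ0 x).PosSemidef) (hv : 0 < vl g μ fun x => -M.ricF g x + σ0 x) (cσ : M.ClF σ)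
    {ε : ℝ} (hε : ε ∈ Ioc (0 : ℝ) 1) (h : ∀ x, (σ x - (ε : ℂ) • σ0 x).PosSemidef) :
    0 < vl g μ fun x => -M.ricF g x + σ x := by
  have A := AY.repA' ι X M
  have B := AY.repB' ι X M
  obtain ⟨cg, pg⟩ := (A.isK_iff g).1 hg
  have cR : M.ClF fun x => -M.ricF g x := by simpa using A.clF_smul (-1) _ (B.ric_cl g hg)
  have z0 : M.Ck 2 fun _ => (0 : ℝ) := fun e _ z _ => contDiffAt_const
  have cs : ∀ (a : ℝ) (v : X → ℝ), M.Ck ∞ v → (M.Ck ∞ fun x => a * v x) ∧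
      ∀ x, M.ddc (fun x => a * v x) x = (a : ℂ) • M.ddc v x := fun a v hv =>
    ⟨B.ck_comp ⊤ v (fun t => a * t) hv fun x => by fun_prop, fun x => by
      simpa only [zero_add, B.ddc_const] using B.ddc_add _ v z0 (Schw.ck_le hv 2) a x⟩
  have c1 := A.clF_smul ε _ (A.clF_add _ _ cR c0)
  have c2 := A.clF_add _ _ cR cσ
  obtain ⟨P, -, hP⟩ := Rg.vpoly hg hμ c2 cg (fun x => (pg x).posSemidef) fun x => rank_le_card_width _
  have e1 : ∫ x, rat (fun y => (ε : ℂ) • (-M.ricF g y + σ0 y)) g x ∂μ =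
      ε ^ Fintype.card ι * vl g μ fun x => -M.ricF g x + σ0 x := by
    rw [vl, ← integral_const_mul]
    congr 1
    funext x
    rw [rat, rat, det_smul, ← ofReal_pow, re_ofReal_mul, mul_div_assoc]
  have k : ∀ δ > (0 : ℝ), ε ^ Fintype.card ι * (vl g μ fun x => -M.ricF g x + σ0 x) ≤ P.eval δ := by
    intro δ hδ
    obtain ⟨w, w1, w2⟩ := hN δ hδ
    obtain ⟨a1, a2⟩ := cs (1 - ε) w w1
    have c3 := A.clF_add _ _ (Rg.cl_lin c2 cg δ) (B.ddc_cl _ a1)
    have := (Rg.vmono hg hμ c1 (Rg.cl_lin c3 c1 (-1)) (fun x => ?_) fun a ha => ?_).2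
    · rw [← e1, hP, ← invAll ι X M g _ μ _ hg hμ (Rg.cl_lin c2 cg δ) a1]
      exact this.trans_eq (RPow.vc fun y => by push_cast; module)
    · convert ((h x).add ((w2 x).smul (zero_le_real.2 (sub_nonneg.2 hε.2)))).add
        ((pg x).posSemidef.smul (zero_le_real.2 (mul_pos hε.1 hδ).le)) using 1
      rw [a2]
      push_cast
      module
    · obtain ⟨v, v1, v2⟩ := hN (a / ε) (div_pos ha hε.1)
      refine ⟨_, (cs ε v v1).1, fun x => ?_⟩
      convert ((v2 x).add (p0 x)).smul (zero_le_real.2 hε.1.le) using 1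
      have : (a : ℂ) = ε * (a / ε : ℝ) := by
        rw [← ofReal_mul, mul_div_cancel₀ _ hε.1.ne']
      rw [(cs ε v v1).2]
      nth_rw 1 [this]
      module
  have e2 := hP 0
  simp only [ofReal_zero, zero_smul, add_zero] at e2
  rw [vl, ← e2]
  exact (mul_pos (pow_pos hε.1 _) hv).trans_le (ge_of_tendsto
    (P.continuous.continuousWithinAt : Tendsto P.eval (𝓝[>] 0) (𝓝 (P.eval 0)))
    (eventually_mem_nhdsWithin.mono k))

/-- the families exist. -/
theorem famE [Nonempty ι] (hg : M.IsK g) (hμ : M.IsVol g μ) (hN : NefA M g) (c0 : M.ClF σ0)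
    (p0 : ∀ x, (σ0 x).PosSemidef) (hv : 0 < vl g μ fun x => -M.ricF g x + σ0 x) (cσ : M.ClF σ)
    (pσ : ∀ x, (σ x).PosSemidef) (cζ : M.ClF ζ) (pζ : ∀ x, (ζ x).PosSemidef)
    (H : ∀ s ∈ Ioc (0 : ℝ) 1, ∃ ε ∈ Ioc (0 : ℝ) 1, ∀ x,
      (σ x + (s : ℂ) • ζ x - (ε : ℂ) • σ0 x).PosSemidef) : ∃ u h, Fe M g μ σ ζ u h := by
  obtain ⟨cg, pg⟩ := ((AY.repA' ι X M).isK_iff g).1 hg
  have kc : KCl M g g := by
    obtain ⟨w, w1, w2⟩ := hN (1 / 2) one_half_pos
    refine ⟨w, w1, fun x => ?_⟩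
    convert ((pg x).smul (a := ((1 / 2 : ℝ) : ℂ)) (zero_lt_real.2 one_half_pos)).add_posSemidef
      (w2 x) using 1
    push_cast
    module
  choose! u h k using fun s (hs : s ∈ Ioc (0 : ℝ) 1) => famV g μ hg hμ hN g
    (fun x => σ x + (ee s : ℂ) • g x) ζ cg kc (Rg.cl_lin cσ cg _)
    (fun x => (pσ x).add ((pg x).posSemidef.smul (zero_le_real.2 (ee_mem hs.1).1.le))) cζ pζ
    fun t ht => ⟨_, ee_mem hs.1, fun x => by
      convert (pσ x).add ((pζ x).smul (zero_le_real.2 ht.1.le)) using 1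
      abel⟩
  refine ⟨fun s => u s s, fun s => h s s, hg, hμ, cσ, pσ, cζ, pζ, fun s hs => ?_,
    fun s hs => ⟨_, _, k s hs, rfl, rfl⟩⟩
  obtain ⟨ε, hε, q⟩ := H (min s 1) ⟨lt_min hs one_pos, min_le_right _ _⟩
  refine vpos hg hμ hN c0 p0 hv (Rg.cl_lin cσ cζ s) hε fun x => ?_
  convert (q x).add ((pζ x).smul (zero_le_real.2 (sub_nonneg.2 (min_le_left s 1)))) using 1
  push_cast
  module

/-- the perturbation does not change the leading term of the volume. -/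
theorem ordE (F : Fe M g μ σ ζ u h) {ζ0 : X → Mat ι} (c0 : M.ClF ζ0) (p0 : ∀ x, (ζ0 x).PosSemidef)
    {k : ℕ} (hk : ∀ x, (ζ0 x).rank ≤ k) : ∃ (P : Polynomial ℝ) (S : ℝ → Polynomial ℝ),
      P.natDegree ≤ k ∧ Nf S ∧
      (∀ t : ℝ, vl g μ (fun x => -M.ricF g x + (σ x + (t : ℂ) • ζ0 x)) = P.eval t) ∧
      ∀ s t : ℝ, (pp P S s).eval t =
        ∫ x, rat (fun y => -M.ricF g y + σ y + (ee s : ℂ) • g y + (t : ℂ) • ζ0 y) g x ∂μ := by
  obtain ⟨P, S, d, n, e⟩ := two F.kg F.vol F.cl c0 p0 hk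
  refine ⟨P, S, d, n, fun t => ?_, fun s t => e _ t⟩
  have := e 0 t
  simp only [map_zero, zero_mul, add_zero, ofReal_zero, zero_smul] at this
  simp only [this, vl, add_assoc]

/-- the volume polynomial of the parallel part. -/
theorem powE (F : Fe M g μ σ ζ u h) (ζ0 : X → Mat ι) (m : ℕ) (v B : ℝ) (s : ℕ → ℝ) (c0 : M.ClF ζ0)
    (p0 : ∀ x, (ζ x - ζ0 x).PosSemidef ∧ (ζ0 x).PosSemidef ∧ (ζ0 x).rank ≤ m)
    (hs : ∀ j, s j ∈ Ioc (0 : ℝ) 1 ∧ ∀ x, s j * trm (h (s j) x) (ζ x) ≤ B)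
    (s0 : Tendsto s atTop (𝓝 0))
    (hv : Tendsto (fun j => vl g μ (fun x => -M.ricF g x + (σ x + (s j : ℂ) • ζ x)) / s j ^ m) atTop
      (𝓝 v))
    (ha : Tendsto (fun j => av g μ (h (s j)) fun x => s j * trm (h (s j) x) (ζ x - ζ0 x)) atTop
      (𝓝 0)) (t : ℝ) : vl g μ (fun x => -M.ricF g x + (σ x + (t : ℂ) • ζ0 x)) = v * t ^ m := by
  have A := AY.repA' ι X M
  have := ((AY.volS' ι X M g F.kg).2 μ F.vol).fin
  have cg := ((A.isK_iff g).1 F.kg).1
  have cη : M.ClF fun x => ζ x - ζ0 x := by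
    simpa [sub_eq_add_neg] using Rg.cl_lin F.cζ c0 (-1)
  obtain ⟨P, S, d, n, hP, hQ⟩ := ordE F c0 (fun x => (p0 x).2.1) fun x => (p0 x).2.2
  obtain ⟨P', S', -, n', hP', hQ'⟩ := ordE F F.cζ F.pζ fun x => rank_le_card_width _
  have s1 : Tendsto s atTop (𝓝[>] 0) :=
    tendsto_nhdsWithin_iff.2 ⟨s0, .of_forall fun j => (hs j).1.1⟩
  set W := fun j => (pp P' S' (s j)).eval (s j) with hW
  replace hv : Tendsto (fun j => W j / s j ^ m) atTop (𝓝 v) := by
    simpa only [hP', Function.comp_def, sub_add_cancel, zero_add] using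
      ((pp_ord (P := P') n' m).comp s1).add hv
  set a := fun j => av g μ (h (s j)) fun x => s j * trm (h (s j) x) (ζ x - ζ0 x) with ea
  have k : ∀ j, |(pp P S (s j)).eval (s j) / s j ^ m - W j / s j ^ m| ≤
      Real.exp B * a j * (W j / s j ^ m) := fun j => by
    obtain ⟨m1, m2⟩ := hs j
    have hk := F.k _ m1
    have ph := ((A.isK_iff _).1 hk).2
    have d := Rg.int_det F.kg F.vol (Rg.cl_lin (Rg.cl_lin F.cl cg (ee (s j))) F.cζ (s j)) cη
      (F.ck _ m1) hk (F.eq m1)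
    have cr := rat_cont F.kg hk
    have pr := fun x => (rat_pos F.kg hk x).le
    have e0 : vl g μ (h (s j)) = W j := by simpa [hW, vl, hQ'] using (d 0).2
    have e1 := (d (-s j)).2.trans (c := (pp P S (s j)).eval (s j)) <| by
      rw [hQ]
      exact RPow.vc fun y => by push_cast; module
    have e2 : a j * W j = ∫ x, s j * trm (h (s j) x) (ζ x - ζ0 x) * rat (h (s j)) g x ∂μ := by
      rw [← e0]
      refine div_mul_cancel_of_imp fun z => integral_eq_zero_of_ae ?_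
      filter_upwards [(integral_eq_zero_iff_of_nonneg pr (Den.intg cr)).1 z] with x hx
      simp [hx]
    rw [← sub_div, abs_div, abs_of_pos (pow_pos m1.1 m), ← mul_div_assoc, mul_assoc, e2, ← e1, ← e0,
      vl, ← integral_sub (Den.intg (d _).1) (Den.intg cr), ← integral_const_mul, ← Real.norm_eq_abs]
    refine div_le_div_of_nonneg_right (norm_integral_le_of_norm_le (Den.intg ?_)
      (.of_forall fun x => ?_)) (pow_pos m1.1 m).le
    · have := Den.cont A (A.ck_trm _ _ hk fun e he => (cη e he).1)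
      fun_prop
    · rw [← sub_one_mul, Real.norm_eq_abs, abs_mul, abs_of_nonneg (pr x), ← mul_assoc]
      refine mul_le_mul_of_nonneg_right (Rg.det_near (ph x) (p0 x).1 m1.1.le
        (le_trans (mul_le_mul_of_nonneg_left ?_ m1.1.le) (m2 x))) (pr x)
      have := Mat.trm_nonneg (ph x) (p0 x).2.1
      simp only [trm, Matrix.sub_mul, trace_sub, sub_re] at this ⊢
      linarith
  have l : Tendsto (fun j => P.eval (s j) / s j ^ m) atTop (𝓝 v) := by
    have := ((ha.const_mul (Real.exp B)).mul hv)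
    rw [mul_zero, zero_mul] at this
    simpa only [zero_add, sub_add_cancel, Function.comp_def, sub_sub_cancel, sub_zero] using
      ((squeeze_zero_norm k this).add hv).sub ((pp_ord (P := P) n m).comp s1)
  obtain ⟨c, hc⟩ := RPow.mono (C := |v| + 1) s0 (.of_forall fun j => (hs j).1.1) m P d <| by
    filter_upwards [l.abs.eventually_le_const (lt_add_one _)] with j hj
    have := pow_pos (hs j).1.1 m
    rwa [abs_div, abs_of_pos this, div_le_iff₀ this] at hj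
  obtain rfl : c = v := tendsto_nhds_unique (tendsto_const_nhds.congr fun j => by
    rw [hc, mul_div_cancel_right₀ _ (pow_pos (hs j).1.1 m).ne']) l
  rw [hP, hc]

end Pool.Agent.Lib.MP_813db1_ag.VH.E1
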