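import Pool.Agent.Lib.MP_813db1_ag.VH.VoAll
import Pool.Agent.Lib.MP_813db1_ag.VH.MgOf

/-! The volume theorem when one Kaehler form is exact on the covering space. -/

namespace Pool.Agent.Lib.MP_813db1_ag.VH.E1

open Pool.Agent.Lib.MP_813db1_ag.HS Pool.Agent.Lib.MP_813db1_ag.AS Pool.Agent.Lib.MP_bbd4b9_ag.AR
  Pool.Agent.Lib.MP_bbd4b9_ag.NH
open MeasureTheory Complex Matrix Filter Topology Set Metric
open scoped ContDiff ComplexOrder Manifold Pointwise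

variable {ι X Y G : Type} [Fintype ι] [DecidableEq ι] [Nonempty ι] [TopologicalSpace X] [T2Space X]
  [CompactSpace X] [MeasurableSpace X] [BorelSpace X] [ChartedSpace (ι → ℂ) X] [TopologicalSpace Y]
  [SimplyConnectedSpace Y] [Group G] [MulAction G Y] {M : Atl ι X} {p : Y → X} {g : X → Mat ι}

/-- a normal Margulis subgroup for the twisted Einstein metrics of `g`. -/
def Mg1 (M : Atl ι X) (p : Y → X) (G : Type) [Group G] [MulAction G Y] (g : X → Mat ι) : Prop :=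
  ∃ L ≥ (0 : ℝ), ∃ w > (0 : ℝ), ∃ N₀ : ℕ, ∀ ε ∈ Ioc (0 : ℝ) 1, ∀ u,
  M.Sol g ε u → ∃ (Z : Type) (_ : MulAction G Z) (_ : PseudoMetricSpace Z) (Φ : Y → Z)
    (z : Fin N₀ → Z) (N : Subgroup G), (∀ (γ : G) (y y' : Z), dist (γ • y) (γ • y') = dist y y') ∧
    (∀ (γ : G) y, Φ (γ • y) = γ • Φ y) ∧
    (∀ y0, ∀ᶠ q : Y × Y in 𝓝 (y0, y0), dist (Φ q.1) (Φ q.2) ≤
      L * √(nV (M.hm g ε u (p y0)) (M.ch (p y0) (p q.2) - M.ch (p y0) (p q.1)))) ∧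
    (∀ y, ∃ (i : Fin N₀) (γ : G), dist (z i) (γ • Φ y) < w) ∧
    N.Normal ∧ N.FG ∧ Group.IsVirtuallyNilpotent N ∧ ∀ i, N.relIndex (Hs G (z i) (10 * w)) ≠ 0

open AY in
theorem mg1 [ConnectedSpace X] [IsManifold 𝓘(ℂ, ι → ℂ) ω X] (h : NS.NsS)
    (hat : atlas (ι → ℂ) X ⊆ M.A) (hch : ∀ x, M.ch x = chartAt (ι → ℂ) x)
    (hp : IsQuotientCoveringMap p G) (hg : M.IsK g) (hX : ExF M g p) : Mg1 M p G g := by
  obtain ⟨⟨μ, hμ⟩, -⟩ := volS' ι X M g hg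
  obtain ⟨hric, -⟩ := solB ι X M g μ hg hμ
  obtain ⟨C, L, A, r, hL, hA0, -, hM⟩ := h ι
  obtain ⟨φ, hφ, hgap⟩ := gapAll ι X M g hg A (1 / 4) hA0 (by norm_num)
  obtain ⟨D, hD⟩ := diam φ r hφ
  obtain ⟨w, hw, N₀, hsc⟩ := hM D
  refine ⟨L, hL, w, hw, N₀, fun ε hε u hu => ?_⟩
  obtain ⟨⟨ν, hν⟩, hV⟩ := volS' ι X M _ hu.2.1
  have := (hV ν hν).fin
  have := (hV ν hν).pos
  obtain ⟨a, γ, a1, a2, a0, a3, a4⟩ := trS X Y G p hp
  obtain ⟨K, -, hE⟩ := hX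
  obtain ⟨d, m, hN⟩ := hsc X Y G K M _ p a γ hat hch hp hE hu.2.1 (hric ε hε.1 u hu) a1 a2 a0
    a3 a4
  have hdi := hD G (Tot X G) X (fun z => z.1) ν m.iso m.geo
    (fun z z' h => ⟨z'.2 * z.2⁻¹, Prod.ext h.symm (by rw [Tot.smul_snd]; group)⟩)
    (ENNReal.toReal_pos (isOpen_univ.measure_ne_zero ν univ_nonempty) (measure_ne_top _ _))
    fun z => by
      obtain ⟨Ψ, p1, p2, p3, p4⟩ := m.bar z.1
      refine ⟨{y | 1 / 4 ≤ Ψ y}, (p1.isClosed_preimage _).measurableSet, ?_, fun x hx => ?_⟩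
      · by_contra hc
        have h0 := hgap ε hε u ν hu hν Ψ (1 / 4) p1 ⟨0, by rintro _ ⟨y, rfl⟩; exact (p2 y).1⟩
          (fun y hy => (p4 y (lt_of_lt_of_le (by norm_num) hy)).1) (not_le.1 hc).le
        refine (Measure.measure_pos_of_mem_nhds ν (s := {y | 1 / 4 + 1 / 4 ≤ Ψ y}) (x := z.1)
          ?_).ne' h0
        filter_upwards [p3] with y hy
        show 1 / 4 + 1 / 4 ≤ Ψ y
        linarith
      · obtain ⟨c, hc⟩ := (p4 x (lt_of_lt_of_le (by norm_num) hx)).2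
        refine ⟨z.2 • Tot.mk x c, rfl, ?_⟩
        rw [← m.iso z.2, Tot.smul_mk, mul_one] at hc
        exact hc.le
  obtain ⟨-, ⟨z, hz⟩, N, n1, n2, n3, n4⟩ := hN hdi
  exact ⟨Tot X G, _, d, fun y => Tot.mk (p y) (γ y), z, N, m.iso,
    fun c y => by simp only [Tot.smul_mk, a3, hp.map_smul],
    fun y0 => tr_near hp.continuous a1 a4
      (P := fun x c x' c' => dist (Tot.mk x c) (Tot.mk x' c') ≤
        L * √(nV (M.hm g ε u (p y0)) (M.ch (p y0) x' - M.ch (p y0) x))) y0 (m.lip (p y0)),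
    fun y => hz _, n3, n1, n2, fun i => n4 _⟩

open AY in
theorem vol0 (hat : atlas (ι → ℂ) X ⊆ M.A) (hch : ∀ x, M.ch x = chartAt (ι → ℂ) x)
    (hq : IsQuotientCoveringMap p G) (hX : ExF M g p) (hM : Mg1 M p G g)
    (hF : FamS M p G) (hE : EqvT M p G) (hA : AlgV) (hT : TrV M p G) (hL : LabS M p G)
    (hP : PmS M p G) (h3 : F3V M) {μ : Measure X} (hg : M.IsK g) (hμ : M.IsVol g μ)
    (hnef : NefA M g) : ∃ (r : Type) (_ : Fintype r) (_ : DecidableEq r) (D : Dt M p G r)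
      (c : G → V r) (x : Y → V r) (τ ξ : X → Mat ι), D.PH ∧ D.Aff c x ∧ (∀ y, star (x y) = x y) ∧
      D.PX x ∧ D.Tau τ ∧ D.Xi x ξ ∧ 0 < ∫ a, rat (fun y => -M.ricF g y + (τ y + ξ y)) g a ∂μ := by
  obtain ⟨r, _, _, D, c, x, τ, ξ, hI, m, U0, E0, _, _, _, K0, a0, Φ0, z1, z2, z3, z4, z5, z6, z7,
    z8⟩ := hF g hg
  refine ⟨r, _, _, D, c, x, τ, ξ, hI.ph, hI.aff, hI.re, hI.px, hI.tau, hI.xi, ?_⟩
  set ζ : X → Mat ι := fun q => τ q + ξ q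
  have cζ : M.ClF ζ := (repA' ι X M).clF_add _ _ hI.ct hI.cx
  have pζ : ∀ q, (ζ q).PosSemidef := fun q => (hI.pt q).add (hI.pξ q)
  by_contra hle
  obtain ⟨L, hL0, w, hw, N₀, hMg⟩ := hM
  obtain ⟨L', T, F, hL', t1, t2, t3, t4⟩ := hT E0 K0 a0 Φ0 ζ U0 m w z3 z4 pζ z5 z6 z7 z8 hw
  obtain ⟨v, hv0, hEA⟩ := eAllR ι (Fin (2 * m)) (L + L') w N₀ hw
  obtain ⟨ε, hε, hsm⟩ := solR ι X M g ζ μ hg hμ cζ pζ (not_lt.1 hle) v hv0
  obtain ⟨u, hu⟩ := solA ι X M g hg hnef ε hε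
  obtain ⟨hK', hsm'⟩ := hsm u hu
  obtain ⟨⟨ν', hν'⟩, -⟩ := volS' ι X M _ hK'
  obtain ⟨Z, _, _, Ψ, z, N, m1, m2, m3, m4, n1, n2, n3, n4⟩ := hMg ε hε u hu
  have pd : ∀ x, (M.hm g ε u x).PosDef := (((repA' ι X M).isK_iff _).1 hu.2.1).2
  obtain ⟨U, k, t, δ, d1, d2, u1, u2, u3, k1, k2⟩ := hEA X Y G Z M _ ν' p Ψ z T hq hK' hν'
    (hsm' ν' hν') m1 m2
    (fun y0 => (m3 y0).mono fun q h => h.trans (mul_le_mul (le_add_of_nonneg_right hL')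
      (Real.sqrt_le_sqrt (nv_mono (pζ _) _)) (Real.sqrt_nonneg _) (by positivity)))
    (fun c x0 => (t1 c x0 _ (pd x0)).mono fun q h => h.trans
      (mul_le_mul_of_nonneg_right (le_add_of_nonneg_left hL0) (Real.sqrt_nonneg _))) m4
  obtain ⟨y', y1, y2⟩ := t4 t d2
  obtain ⟨K, hr, α, a1, a2⟩ := hX
  obtain ⟨E, _, ce, ue, e1, e2, e3⟩ := extS ι X Y G M _ p α _ hat
    (fun x => ⟨_, chart_mem_atlas _ x, mem_chart_source _ x⟩) hq a1 a2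
  obtain ⟨K1, hK1, hc⟩ := hA G E ce N (fg_deck hq) n1 n2 n3
  obtain ⟨r1, _, b1, Φ1, p1, p2⟩ := hE g hg ζ m cζ pζ z1 z2 K1 hK1
  obtain ⟨b2, p3⟩ := hP.prd _ _ K1 K0 b1 a0 Φ1 Φ0 p1 z3
  obtain ⟨Γ, O, l, φ, l1, l2, l3, l4, l5, l6, l7, l8, l9, l10⟩ := hL _ _ b2 _ p3 y'
    {b | ∀ c, |F c b.2 - t c| < δ} (eventually_all.2 fun c =>
      ContinuousAt.eventually_lt (f := fun b : V r1 × E0 => |F c b.2 - t c|)
        ((((t3 c y').comp (f := Prod.snd) (x := (Φ1 y', Φ0 y')) continuousAt_snd).sub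
          continuousAt_const).abs) continuousAt_const (by
            show |F c (Φ0 y') - t c| < δ
            rwa [← t2, y2, sub_self, abs_zero]))
  obtain ⟨S, hS⟩ := hc Γ (Com.ri_mono inf_le_left l1)
  obtain ⟨Lf, lam, f1, f2, f3⟩ := liftQ ce Γ N S (fun i => Hs G (z i) (10 * w)) hS (cmn_nor n1) n4
  obtain ⟨a, f, c1, c2⟩ := f12R repA' mat pouAll ι X Y G E _
    (fun i => (G ⧸ Hs G (z i) (10 * w)) × (G ⧸ Γ)) M g _ p α ce ue Lf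
    (fun i j q q' => lam i j q.1 q'.1 q.2) (fun i => U i ∩ O) (fun i y => (k i y, l y)) hat
    (fun x => hch x ▸ chart_mem_atlas _ x) hq a1 (fun e he z hz s s1 s2 => by
      rw [hr e he z hz]
      exact a2 e he z hz s s1 s2) e1 e2 e3 f1 f2 (fun i j γ y _ _ => f3 i j γ _ _ _)
    (fun i => (u1 i).inter l2) (fun i γ y hy => Prod.ext (k1 i γ y hy.1) (l4 γ y hy.2))
    fun i y hy => ((k2 i y hy.1).and (l5 y hy.2)).mono fun y' h => Prod.ext h.1 h.2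
  refine l9.ne' (h3 _ g ζ m _ a f φ hg cζ pζ z1 (fun i => (u1 i).inter l2) (fun i x hx => ?_) c1 c2
    l6 l7 (fun x hx => ?_) (fun x hx v hv => Kil.dd hq
      (l10 ζ _ (p2.prod (z4.kil _) p1.sm z3.sm)) hx hv) _ (z7 _ y1))
  · obtain ⟨y, rfl, hy⟩ := l3 x hx.2
    have := u3 (p y) fun c => by
      rw [t2]
      exact hy c
    rw [Fintype.card_fin] at this
    exact le_trans (Nat.add_le_add_right (ncard_le_ncard (fun j hj => hj.1) (toFinite _)) _) this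
  · obtain ⟨i, hi⟩ := u2 x
    exact ⟨i, hi, l8 hx⟩

theorem vol1 (hat : atlas (ι → ℂ) X ⊆ M.A) (hch : ∀ x, M.ch x = chartAt (ι → ℂ) x)
    (hq : IsQuotientCoveringMap p G) (hX : ExF M g p) (hM : Mg1 M p G g) (hF : Hr.FormS2 M G p)
    (hCo : CorS M p G) (hS : SiuS M p G) (hH : HodS M p G) (hPo : PoiS M p G) (hPx : PxS M p G)
    {μ : Measure X} (hg : M.IsK g) (hμ : M.IsVol g μ) (hnef : NefA M g) :
    ∃ (r : Type) (_ : Fintype r) (_ : DecidableEq r) (D : Dt M p G r)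
      (c : G → V r) (x : Y → V r) (τ ξ : X → Mat ι), D.PH ∧ D.Aff c x ∧ (∀ y, star (x y) = x y) ∧
      D.PX x ∧ D.Tau τ ∧ D.Xi x ξ ∧ 0 < ∫ a, rat (fun y => -M.ricF g y + (τ y + ξ y)) g a ∂μ :=
  vol0 hat hch hq hX hM (famS (fg_deck hq) intC sumS (domS hq)
      (cnjS hq (cjS hq (primS hq)) dualS tenS) pmS (decS (fg_deck hq) intC hH hPx hPo (frmS hq)))
    (eqvT (flagS (triC ssS) hCo hS sumS)
      (fun g hg ζ k a b c => hF g hg ζ _ k a b c fun _ => Iff.rfl) pmS)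
    (algV fixS) (trV hq (avgS hq)) (labS hq (avgS hq)) pmS (f3V posV vanV locP) hg hμ hnef

end Pool.Agent.Lib.MP_813db1_ag.VH.E1
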