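import Pool.Agent.Lib.MP_813db1_ag.VH.E1.Rig
import Pool.Agent.Lib.MP_813db1_ag.VH.E1.Vol
import Pool.Agent.Lib.MP_813db1_ag.VH.S8.All8

/-! Abundance when one Kaehler form is exact on the universal covering space. -/

namespace Pool.Agent.Lib.MP_813db1_ag.VH.E1

open Pool.Agent.Lib.MP_813db1_ag.HS Pool.Agent.Lib.MP_813db1_ag.AS
open MeasureTheory Matrix Filter Topology Set
open scoped ContDiff ComplexOrder Manifold

variable {ι X Y G : Type} [Fintype ι] [DecidableEq ι] [Nonempty ι] [TopologicalSpace X] [T2Space X]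
  [CompactSpace X] [ConnectedSpace X] [MeasurableSpace X] [BorelSpace X] [ChartedSpace (ι → ℂ) X]
  [TopologicalSpace Y] [SimplyConnectedSpace Y] [Group G] [MulAction G Y] {p : Y → X}

omit [Nonempty ι] [SimplyConnectedSpace Y] in
open S8 in
theorem num1 {M : Atl ι X} (hch : ∀ x, M.ch x = chartAt (ι → ℂ) x)
    (hq : IsQuotientCoveringMap p G) : NumV M p G := by
  intro K g hg hrep m E Q c x h ξ hS
  have A := AY.repA' ι X M
  obtain ⟨y, -⟩ := hq.surjective (Classical.arbitrary X)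
  have hQ : Q.det ≠ 0 := fun h0 => by
    have := congrArg det (hS.pol.sq y)
    rw [det_mul, Dt.J, det_mul, h0, mul_zero, mul_zero, det_neg, det_one, mul_one] at this
    exact pow_ne_zero _ (neg_ne_zero.2 one_ne_zero) this.symm
  obtain ⟨L, hL⟩ := lagS (Fin (2 * m)) (Fin m) Q hS.pol.re hS.pol.alt hQ (by simp)
  have key : ∀ a, ∃ H D, S8.Pt Q L H (h a) D ∧ ξ a = xiM H D := fun a => by
    have hz := (M.ch a).map_source (M.mem a)
    obtain ⟨s, hs⟩ := sec_ex' hq hz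
    obtain ⟨-, h1, h2⟩ := plS (ptS algS) hS (Fin m) L hL _ (M.ch_mem a) _ hz s hs
    rw [A.repF_self] at h1 h2
    exact ⟨_, _, h1, h2⟩
  refine NumAux.num_le (b := fun a => h a - ξ a) K hch hg hrep hS.k (fun a => ?_) (fun a => ?_)
    fun a t ht => ?_
  · rw [hS.ric, neg_sub, neg_add_eq_sub]
  · obtain ⟨H, D, h1, h2⟩ := key a
    rw [h2]
    exact h1.psd
  · obtain ⟨H, D, h1, h2⟩ := key a
    have := h1.det t ht
    rw [Fintype.card_fin] at this
    rw [h2]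
    exact this

variable [IsManifold 𝓘(ℂ, ι → ℂ) ω X]

/-- the rigid situation occurs. -/
theorem spl1 (K : Kahler ι X) (hp : IsQuotientCoveringMap p G) (hE : Exact K p) :
    ∃ (M : Atl ι X) (g : X → Mat ι), atlas (ι → ℂ) X ⊆ M.A ∧ (∀ x, M.ch x = chartAt (ι → ℂ) x) ∧
      M.IsK g ∧ (∀ e ∈ atlas (ι → ℂ) X, ∀ z ∈ e.target, M.repF g e z = K.g e z) ∧
      ∃ (m : ℕ) (E : Dt M p G (Fin (2 * m))) (Q : Mat (Fin (2 * m))) (c : G → V (Fin (2 * m)))
        (x : Y → V (Fin (2 * m))) (h ξ : X → Mat ι), E.Spl Q c x h ξ := by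
  have ha := AY.repA'
  obtain ⟨M, g, hA, hch, hg, hrep⟩ := maxAtl ha ι X K
  obtain ⟨μ, hμ⟩ := (AY.volS' ι X M g hg).1
  have hK := AN.nefS ι X Y G K p hp hE
  have eg : ∀ x, g x = K.g (chartAt (ι → ℂ) x) (chartAt (ι → ℂ) x x) := fun x => by
    rw [← hrep _ (chart_mem_atlas _ x) _ (mem_chart_target _ x), ← hch, (ha ι X M).repF_self]
  have er : ∀ x, M.ricF g x = ric (K.g (chartAt (ι → ℂ) x)) (chartAt (ι → ℂ) x x) := fun x => by
    rw [Atl.ricF, hch]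
    refine Main.ric_cg ?_
    filter_upwards [(chartAt (ι → ℂ) x).open_target.mem_nhds (mem_chart_target _ x)] with w hw
    rw [hrep _ (chart_mem_atlas _ x) w hw]
  have hnef : NefA M g := fun ε hε => by
    obtain ⟨w, h⟩ := hK ε hε
    refine ⟨w, (ha ι X M).ck_loc ⊤ w fun x => ⟨_, hA (chart_mem_atlas _ x), mem_chart_source _ x,
      ?_⟩, fun x => ?_⟩
    · exact Complex.ofRealCLM.contDiff.contDiffAt.comp _
        (((h _ (chart_mem_atlas _ x)).1).contDiffAt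
          ((chartAt (ι → ℂ) x).open_target.mem_nhds (mem_chart_target _ x)))
    · rw [er, eg, Atl.ddc, hch]
      exact (h _ (chart_mem_atlas _ x)).2 _ (mem_chart_target _ x)
  have I : Inp M p G := inp hp
  have hX : ExF M g p := ⟨K, hrep, hE⟩
  obtain ⟨r, _, _, D, c, x, τ, ξ, v1, v2, v3, v4, v5, v6, v7⟩ := vol1 hA hch hp hX
    (mg1 NS.nsAll hA hch hp hg hX) I.fo I.co I.si I.ho I.po I.px hg hμ hnef
  obtain ⟨c1, p1⟩ := tau_ok hp (frmS hp) v1 v5
  obtain ⟨c2, p2⟩ := xi_ok hp (frmS hp) v2 v3 v4 v6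
  obtain ⟨E, Q, c', x', d1, d2, d3, d4, d5, d6⟩ :=
    dblS hp sumS dualS (primS hp) r D c x τ ξ v1 v2 v3 v4 v5 v6
  have A := ha ι X M
  refine ⟨M, g, hA, hch, hg, hrep, rigE hA hp hg hμ hnef hX E Q c' x' _ _ d1 d2 d3 d4 d5 d6
    (vpos hg hμ hnef (A.clF_add _ _ c1 c2) (fun a => (p1 a).add (p2 a)) v7
      (A.clF_add _ _ (A.clF_add _ _ c1 c1) (A.clF_add _ _ c2 c2)) ⟨one_pos, le_rfl⟩ fun a => ?_)⟩
  have e : τ a + τ a + (ξ a + ξ a) - ((1 : ℝ) : ℂ) • (τ a + ξ a) = τ a + ξ a := by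
    rw [Complex.ofReal_one, one_smul]
    abel
  rw [e]
  exact (p1 a).add (p2 a)

/-- abundance. -/
theorem abund1 (K : Kahler ι X) (hp : IsQuotientCoveringMap p G) (hE : Exact K p) :
    ∃ N : ℕ, 0 < N ∧ ∃ c : ℝ, 0 < c ∧ ∀ᶠ a : ℕ in atTop, ∃ (Q : ℕ)
      (s : Fin Q → OpenPartialHomeomorph X (ι → ℂ) → (ι → ℂ) → ℂ),
      c * (a : ℝ) ^ K.numDim ≤ Q ∧ (∀ j, IsPluri (N * a) (s j)) ∧ Indep s := by
  obtain ⟨M, g, hA, hch, hg, hr, m, E, Q, c, x, h, ξ, k⟩ := spl1 K hp hE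
  have A := AY.repA' ι X M
  obtain ⟨N, N0, c0, hc, hev⟩ := S8.secV hp m E Q c x h ξ k
  refine ⟨N, N0, c0, hc, ?_⟩
  filter_upwards [hev, eventually_ge_atTop 1] with a ⟨q, s, hQ, hs, hli⟩ ha
  refine ⟨q, fun j e z => M.rep (N * a) (s j) e z, le_trans (mul_le_mul_of_nonneg_left
    (pow_le_pow_right₀ (by exact_mod_cast ha) (num1 hch hp K g hg hr m E Q c x h ξ k)) hc.le) hQ,
    fun j => ⟨fun e he => hs j e (hA he), fun e he e' he' x hx hx' =>
      A.rep_tr _ _ e (hA he) e' (hA he') x hx hx'⟩, fun d hd => ?_⟩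
  funext j
  refine Fintype.linearIndependent_iff.1 hli d ?_ j
  funext x
  have h := hd _ (chart_mem_atlas (ι → ℂ) x) _ (mem_chart_target _ x)
  simp only [← hch x, A.rep_self] at h
  simpa using h

end Pool.Agent.Lib.MP_813db1_ag.VH.E1
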