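import Pool.Agent.Lib.MP_813db1_ag.VH.RgI

/-! Volume polynomials with a small Kaehler perturbation. -/

namespace Pool.Agent.Lib.MP_813db1_ag.VH.E1

open Pool.Agent.Lib.MP_813db1_ag.HS Pool.Agent.Lib.MP_813db1_ag.AS
open MeasureTheory Complex Matrix Filter Topology Set
open scoped ContDiff ComplexOrder

/-- the size of the perturbation. -/
noncomputable def ee (s : ℝ) : ℝ := expNegInvGlue s

theorem ee_mem {s : ℝ} (hs : 0 < s) : ee s ∈ Ioc (0 : ℝ) 1 :=
  ⟨expNegInvGlue.pos_of_pos hs, by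
    rw [ee, expNegInvGlue, if_neg (not_le.2 hs)]
    exact Real.exp_le_one_iff.2 (neg_nonpos.2 (inv_pos.2 hs).le)⟩

theorem ee_lim (m : ℕ) : Tendsto (fun s => ee s / s ^ m) (𝓝[>] 0) (𝓝 0) :=
  ((expNegInvGlue.tendsto_polynomial_inv_mul_zero (Polynomial.X ^ m)).mono_left
    nhdsWithin_le_nhds).congr fun s => by simp [ee, div_eq_inv_mul]

/-- polynomial families of polynomials. -/
def Nf (S : ℝ → Polynomial ℝ) : Prop := ∃ (N : ℕ) (l Q : ℕ → Polynomial ℝ),
  ∀ e, S e = ∑ j ∈ Finset.range N, Polynomial.C ((l j).eval e) * Q j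

theorem Nf.der {S : ℝ → Polynomial ℝ} (h : Nf S) : Nf fun e => (S e).derivative := by
  obtain ⟨N, l, Q, k⟩ := h
  exact ⟨N, l, fun j => (Q j).derivative, fun e => by simp [k]⟩

theorem Nf.lim {S : ℝ → Polynomial ℝ} (h : Nf S) {f : ℝ → ℝ} (hf : Tendsto f (𝓝[>] 0) (𝓝 0))
    (m : ℕ) : Tendsto (fun s => ee s * (S (ee s)).eval (f s) / s ^ m) (𝓝[>] 0) (𝓝 0) := by
  obtain ⟨N, l, Q, k⟩ := h
  have e0 : Tendsto ee (𝓝[>] 0) (𝓝 0) := by simpa using ee_lim 0
  have := (ee_lim m).mul (tendsto_finsetSum (Finset.range N) fun j _ =>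
    (((l j).continuous.tendsto 0).comp e0).mul (((Q j).continuous.tendsto 0).comp hf))
  rw [zero_mul] at this
  refine this.congr fun s => ?_
  simp only [k, Polynomial.eval_finsetSum, Polynomial.eval_mul, Polynomial.eval_C,
    Function.comp_apply]
  ring

/-- the perturbed polynomial. -/
noncomputable def pp (P : Polynomial ℝ) (S : ℝ → Polynomial ℝ) (s : ℝ) : Polynomial ℝ :=
  P + Polynomial.C (ee s) * S (ee s)

theorem pp_ord {P : Polynomial ℝ} {S : ℝ → Polynomial ℝ} (h : Nf S) (m : ℕ) :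
    Tendsto (fun s => (pp P S s).eval s / s ^ m - P.eval s / s ^ m) (𝓝[>] 0) (𝓝 0) :=
  (h.lim nhdsWithin_le_nhds m).congr fun s => by
    simp only [pp, Polynomial.eval_add, Polynomial.eval_mul, Polynomial.eval_C]
    ring

theorem pol2 {P : Polynomial ℝ} {S : ℝ → Polynomial ℝ} (hP : ∀ s > 0, 0 < P.eval s) (h : Nf S) :
    Tendsto (fun s => s * (pp P S s).derivative.eval s / (pp P S s).eval s) (𝓝[>] 0)
      (𝓝 P.natTrailingDegree) ∧
    Tendsto (fun s => s ^ 2 * (pp P S s).derivative.derivative.eval s / (pp P S s).eval s) (𝓝[>] 0)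
      (𝓝 (P.natTrailingDegree * (P.natTrailingDegree - 1))) ∧
    ∀ t : ℝ, 0 ≤ t → Tendsto (fun s => (pp P S s).eval ((1 + t) * s) / (pp P S s).eval s) (𝓝[>] 0)
      (𝓝 ((1 + t) ^ P.natTrailingDegree)) := by
  obtain ⟨p1, p2, p3, p4, p5⟩ := poly P hP
  set m := P.natTrailingDegree
  have q := (pp_ord (P := P) h m).add p2
  simp only [zero_add, sub_add_cancel] at q
  have key : ∀ (a b c : ℝ → ℝ) (L : ℝ), Tendsto (fun s => a s / P.eval s) (𝓝[>] 0) (𝓝 L) →
      Tendsto (fun s => b s / s ^ m) (𝓝[>] 0) (𝓝 0) → (∀ s, c s = a s + b s) →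
      Tendsto (fun s => c s / (pp P S s).eval s) (𝓝[>] 0) (𝓝 L) := fun a b c L ha hb hc => by
    have := ((ha.mul p2).add hb).div q p1.ne'
    rw [add_zero, mul_div_cancel_right₀ _ p1.ne'] at this
    refine this.congr' (eventually_nhdsWithin_of_forall fun s hs => ?_)
    have h1 := (hP s hs).ne'
    have h2 := (pow_pos (show 0 < s from hs) m).ne'
    simp only [Pi.div_apply, hc]
    rw [← mul_div_assoc, div_mul_cancel₀ _ h1, ← add_div, div_div_div_cancel_right₀ h2]
  have i0 : Tendsto (fun s : ℝ => s) (𝓝[>] 0) (𝓝 0) := nhdsWithin_le_nhds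
  refine ⟨key _ (fun s => s * (ee s * (S (ee s)).derivative.eval s)) _ _ p3 ?_ fun s => ?_,
    key _ (fun s => s ^ 2 * (ee s * (S (ee s)).derivative.derivative.eval s)) _ _ p4 ?_ fun s => ?_,
    fun t ht => key _ (fun s => ee s * (S (ee s)).eval ((1 + t) * s)) _ _ (p5 t ht)
      (h.lim (by simpa using i0.const_mul (1 + t)) m) fun s => ?_⟩
  · simpa only [mul_zero, mul_div_assoc] using i0.mul (h.der.lim i0 m)
  · simp [pp, mul_add]
  · simpa only [mul_zero, mul_div_assoc] using (i0.pow 2).mul (h.der.der.lim i0 m)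
  · simp [pp, mul_add]
  · simp [pp]

variable {ι X : Type} [Fintype ι] [DecidableEq ι] [TopologicalSpace X] [T2Space X] [CompactSpace X]
  [MeasurableSpace X] [BorelSpace X] {M : Atl ι X} {g B ξ R : X → Mat ι} {μ : Measure X}

/-- the volume polynomial in two variables. -/
theorem two (hg : M.IsK g) (hμ : M.IsVol g μ) (hB : M.ClF B) (hξ : M.ClF ξ)
    (pξ : ∀ x, (ξ x).PosSemidef) {k : ℕ} (hk : ∀ x, (ξ x).rank ≤ k) :
    ∃ (P : Polynomial ℝ) (S : ℝ → Polynomial ℝ), P.natDegree ≤ k ∧ Nf S ∧ ∀ e t : ℝ,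
      (P + Polynomial.C e * S e).eval t =
        ∫ x, rat (fun y => B y + (e : ℂ) • g y + (t : ℂ) • ξ y) g x ∂μ := by
  obtain ⟨cg, pg⟩ := ((AY.repA' ι X M).isK_iff g).1 hg
  choose Q q1 q2 using fun j : ℕ => Rg.vpoly hg hμ (Rg.cl_lin hB cg j) hξ pξ hk
  set n := Fintype.card ι
  set b : ℕ → Polynomial ℝ := Lagrange.basis (Finset.range (n + 1)) fun j : ℕ => (j : ℝ) with hb
  refine ⟨∑ j ∈ Finset.range (n + 1), Polynomial.C ((b j).eval 0) * Q j, fun e =>
    ∑ j ∈ Finset.range (n + 1), Polynomial.C ((b j).divX.eval e) * Q j,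
    Polynomial.natDegree_sum_le_of_forall_le _ _ fun j _ =>
      (Polynomial.natDegree_C_mul_le _ _).trans (q1 j), ⟨_, fun j => (b j).divX, Q, fun _ => rfl⟩,
    fun e t => ?_⟩
  obtain ⟨W, w1, w2⟩ := Rg.vpoly hg hμ (Rg.cl_lin hB hξ t) cg (fun x => (pg x).posSemidef)
    fun x => rank_le_card_width _
  have e1 := Lagrange.eq_interpolate (s := Finset.range (n + 1)) (v := fun j : ℕ => (j : ℝ))
    (f := W) (fun a _ b _ hab => Nat.cast_injective hab) (by
      rw [Finset.card_range]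
      exact Polynomial.degree_le_natDegree.trans_lt (by exact_mod_cast Nat.lt_succ_of_le w1))
  have e2 : W.eval e = ∑ j ∈ Finset.range (n + 1), (Q j).eval t * (b j).eval e := by
    conv_lhs => rw [e1, Lagrange.interpolate_apply, Polynomial.eval_finsetSum]
    refine Finset.sum_congr rfl fun j _ => ?_
    rw [Polynomial.eval_mul, Polynomial.eval_C, w2, q2]
    simp only [add_right_comm _ _ (((j : ℝ) : ℂ) • g _), hb]
  simp only [← add_right_comm _ _ ((e : ℂ) • g _)]
  rw [← w2, e2, Polynomial.eval_add, Polynomial.eval_mul, Polynomial.eval_C,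
    Polynomial.eval_finsetSum, Polynomial.eval_finsetSum, Finset.mul_sum, ← Finset.sum_add_distrib]
  refine Finset.sum_congr rfl fun j _ => ?_
  have := congrArg (Polynomial.eval e) (b j).X_mul_divX_add
  simp only [Polynomial.eval_add, Polynomial.eval_mul, Polynomial.eval_X, Polynomial.eval_C,
    Polynomial.coeff_zero_eq_eval_zero] at this ⊢
  rw [← this]
  ring

/-- uniform bounds for the densities of all classes below a fixed form. -/
theorem dens2 [ConnectedSpace X] (hg : M.IsK g) (hμ : M.IsVol g μ) (h0 : M.ClF R) :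
    ∃ C ≥ (0 : ℝ), ∀ (B : X → Mat ι) u h, (∀ x, (R x - B x).PosSemidef) → M.Ck ∞ u → M.IsK h →
      (∀ x, h x = B x + M.ddc u x) → ∀ v, ∫ x, Real.exp (u x - v) ∂μ = 1 →
      (∀ x, Real.exp (u x - v) ≤ C) ∧ ∫ x, |u x - v| ∂μ ≤ C ∧ ∫ x, trm (g x) (h x) ∂μ ≤ C ∧
        ∀ x, -C ≤ M.lap g u x := by
  have ha := AY.repA' ι X M
  have hb := AY.repB' ι X M
  have hv := (AY.volS' ι X M g hg).2 μ hμ
  have := hv.fin
  have := hv.pos
  have pd := ((ha.isK_iff g).1 hg).2
  have hR : M.ClF fun x => -R x := by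
    simpa only [ofReal_neg, ofReal_one, neg_smul, one_smul] using ha.clF_smul (-1) _ h0
  have hp : 0 < μ.real univ :=
    ENNReal.toReal_pos (isOpen_univ.measure_ne_zero μ univ_nonempty) (measure_ne_top μ _)
  have sm : M.SmF fun x => -R x * (g x)⁻¹ * -R x := fun e he z hz i j => by
    refine ((((hR e he).1.mul ((hg e he).1.1.inv fun w hw => ((hg e he).2 w hw).det_pos.ne')).mul
      (hR e he).1) z hz i j).congr_of_eventuallyEq ?_
    filter_upwards [e.open_target.mem_nhds hz] with w hw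
    rw [ha.repF_mul (fun x => -R x) _ (fun x => -R x) e he w hw]
  have cR := Den.cont ha (ha.ck_trm g _ hg fun e he => (h0 e he).1)
  obtain ⟨T, hT⟩ := isCompact_univ.exists_bound_of_continuousOn
    (Den.cont ha (ha.ck_trm g _ hg sm)).continuousOn
  obtain ⟨S, hS⟩ := isCompact_univ.exists_bound_of_continuousOn cR.continuousOn
  obtain ⟨L, hL⟩ := weight AY.repA' AY.repB' AY.volS' mat ι X M g μ ((1 + T) / 2) hg hμ
  set B1 := Real.exp (L / μ.real univ) / μ.real univ with hB1
  set B2 := (B1 + μ.real univ) * μ.real univ + L with hB2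
  refine ⟨|B1| + |B2| + |S * μ.real univ| + |S|, by positivity, fun B u h hs hu hH e v h1 => ?_⟩
  have pH := ((ha.isK_iff _).1 hH).2
  have cu := Den.cont ha hu
  obtain ⟨x0, -, hx0⟩ := isCompact_univ.exists_isMaxOn univ_nonempty cu.continuousOn
  have hx : ∀ x, u x ≤ u x0 := fun x => hx0 (mem_univ x)
  have k1 := hL u hu (fun x => by
    have := ((pH x).posSemidef.add (hs x)).add
      (Den.psd_low mat (pd x) (ha.herm _ hR x) ((le_abs_self _).trans (hT x (mem_univ x))))
    convert this using 1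
    rw [e]
    push_cast
    module) x0 hx
  obtain ⟨k2, k3⟩ := Den.expb (μ := μ) (w := fun x => u x - v) (B := L) (s := u x0 - v)
    (by fun_prop) hp h1 (fun x => by linarith [hx x])
    (by simpa only [sub_sub_sub_cancel_right] using k1)
  have tr : ∀ x, trm (g x) (h x) ≤ S + M.lap g u x := fun x => by
    have a1 := (le_abs_self _).trans (hS x (mem_univ x))
    have a2 := Mat.trm_nonneg (pd x) (hs x)
    simp only [e, trm, Atl.lap, Matrix.add_mul, Matrix.sub_mul, trace_add, trace_sub, add_re,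
      sub_re] at a1 a2 ⊢
    linarith
  obtain ⟨c1, -, i0⟩ := Den.green1 ha AY.greenS hg hμ hu (v := fun _ => 1)
    fun e he z hz => contDiffAt_const
  have i1 : ∫ x, M.lap g u x ∂μ = 0 := by
    rw [← i0]
    refine integral_congr_ae (.of_forall fun x => ?_)
    have := (Den.grad_comp hb g hu (differentiable_const (1 : ℝ)) x).1
    simp only [this, deriv_const', zero_mul, one_mul, add_zero]
  have p1 := abs_nonneg B1
  have p2 := abs_nonneg B2
  have p3 := abs_nonneg (S * μ.real univ)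
  have p4 := abs_nonneg S
  refine ⟨fun x => ?_, by linarith [le_abs_self B2], ?_, fun x => ?_⟩
  · linarith [le_abs_self B1, (Real.exp_le_exp.2 (by linarith [hx x] : u x - v ≤ u x0 - v)).trans k2]
  · have : ∫ x, trm (g x) (h x) ∂μ ≤ ∫ x, (S + M.lap g u x) ∂μ :=
      integral_mono (Den.intg (Den.cont ha (ha.ck_trm g _ hg fun e he => (hH e he).1.1)))
        (Den.intg (by fun_prop)) tr
    rw [integral_add (integrable_const _) (Den.intg c1), i1, integral_const, smul_eq_mul,
      mul_comm] at this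
    linarith [le_abs_self (S * μ.real univ)]
  · have := Mat.trm_nonneg (pd x) (pH x).posSemidef
    linarith [le_abs_self S, tr x]

end Pool.Agent.Lib.MP_813db1_ag.VH.E1
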