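import Pool.Agent.Lib.MP_813db1_ag.VH.E1.Fe
import Pool.Agent.Lib.MP_813db1_ag.VH.RQ0

/-! The pointwise bounds of the first stage, for the perturbed families. -/

namespace Pool.Agent.Lib.MP_813db1_ag.VH.E1

open Pool.Agent.Lib.MP_813db1_ag.HS Pool.Agent.Lib.MP_813db1_ag.AS
open MeasureTheory Complex Matrix Filter Topology Set
open scoped ContDiff ComplexOrder

set_option linter.unusedSectionVars false

open RQ0

theorem t2_ric3 {ι : Type} [Fintype ι] [DecidableEq ι] {h : Mat ι} (hh : h.PosDef)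
    (B τ g ξ : Mat ι) (c e s : ℝ) : t2 h B (-h + ((c : ℂ) • τ + (e : ℂ) • g + (s : ℂ) • ξ)) =
      -trm h B + c * t2 h B τ + e * t2 h B g + s * t2 h B ξ := by
  rw [t2, t2, t2, t2, ← add_assoc, ← add_assoc, Matrix.mul_add, Matrix.mul_add, Matrix.mul_add,
    Matrix.mul_smul, Matrix.mul_smul, Matrix.mul_smul, trm_lin, trm_lin, trm_lin, Matrix.mul_neg,
    trm_neg, nonsing_inv_mul_cancel_right _ _ hh.det_pos.ne'.isUnit]

variable {ι X Y G : Type} [Fintype ι] [DecidableEq ι] [Nonempty ι] [TopologicalSpace X]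
  [CompactSpace X] [MeasurableSpace X] [TopologicalSpace Y] [Group G] [MulAction G Y]
  {M : Atl ι X} {p : Y → X}

theorem q0E (hq : IsQuotientCoveringMap p G) (hB : BoL) (hN : AlgN) (hT : AlgT)
    (hEta : EtaS M p G) (hEn : EnS M p G) {g : X → Mat ι} {μ : Measure X} {u : ℝ → X → ℝ}
    {h : ℝ → X → Mat ι} {r : Type} [Fintype r] [DecidableEq r] {D : Dt M p G r} {c : G → V r}
    {x : Y → V r} {τ ξ : X → Mat ι} (ph : D.PH) (aff : D.Aff c x) (rx : ∀ y, star (x y) = x y)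
    (px : D.PX x) (tau : D.Tau τ) (xi : D.Xi x ξ)
    (F : Fe M g μ (fun y => ((Fintype.card ι + 1 : ℝ) : ℂ) • τ y) ξ u h) :
    ∃ B, ∀ s ∈ Ioc (0 : ℝ) 1, ∀ y, s * trm (h s y) (ξ y) ≤ B ∧ trm (h s y) (τ y) ≤ B := by
  obtain ⟨a, ha, -, h2⟩ := hEta r D c x ξ aff xi
  replace h2 := h2 rx px
  obtain ⟨E, b, hE⟩ := hEn r D τ ph tau
  have A := AY.repA' ι X M
  have B := AY.repB' ι X M
  have n1' : (1 : ℝ) ≤ Fintype.card ι := by exact_mod_cast Fintype.card_pos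
  have sτ : M.SmF τ := smF_of hq tau fun e he z hz s hs i j =>
    ((((D.sm e he z hz s hs).ca (D.det_ne _) i).mul
      ((D.sm e he z hz s hs).cb (D.det_ne _) j)).trace).div_const 4
  have sξ : M.SmF ξ := fun e he => (F.cζ e he).1
  have pτ : ∀ y, (τ y).PosSemidef := fun y => by
    obtain ⟨s, -, hs⟩ := hE.f.gr.base hq y
    rw [A.repF_self] at hs
    rw [hs]
    exact (hN ι _ (g y) _ (((A.isK_iff g).1 F.kg).2 y) (E.pos _)).2.2.1 _
  refine ⟨4 * Fintype.card ι, fun s hs y => ?_⟩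
  have hh := F.k s hs
  have pd := ((A.isK_iff _).1 hh).2
  have c1 : M.Ck 2 fun y => trm (h s y) (ξ y) := fun e he z hz =>
    (A.ck_trm _ ξ hh sξ e he z hz).of_le (by norm_cast)
  have c2 : M.Ck 2 fun y => trm (h s y) (τ y) := fun e he z hz =>
    (A.ck_trm _ τ hh sτ e he z hz).of_le (by norm_cast)
  have c3 : M.Ck 2 fun y => trm (h s y) (ξ y) + 2 * Fintype.card ι / s * trm (h s y) (τ y) :=
    fun e he z hz => by
      refine ((c1 e he z hz).add ((contDiffAt_const (c := ((2 * Fintype.card ι / s : ℝ) : ℂ))).mul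
        (c2 e he z hz))).congr_of_eventuallyEq (Eventually.of_forall fun w => ?_)
      simp only [fn, ofReal_add, ofReal_mul]
  obtain ⟨y0, -, hy0⟩ := isCompact_univ.exists_isMaxOn ⟨y, mem_univ y⟩
    (A.cont _ fun e he z hz => (c3 e he z hz).of_le (by norm_cast)).continuousOn
  have m0 := mat.trm_nonneg ι _ _ (pd y0) (B.max _ y0 c3 fun y => hy0 (mem_univ y))
  rw [B.ddc_add _ _ c1 c2, trm_neg, trm_lin, neg_nonneg] at m0
  have he := M.ch_mem y0
  have hz := (M.ch y0).map_source (M.mem y0)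
  obtain ⟨t, ht⟩ := sec_ex' hq hz
  have b1 := boch hq hB ph ha sξ hh y0 rfl rfl ht
  have b2 := boch hq hB hE.ph hE.f sτ hh y0 rfl rfl ht
  have gξ := (A.repF_self ξ y0).symm.trans (ha.gr _ he _ hz t ht)
  have gτ := (A.repF_self τ y0).symm.trans (hE.f.gr _ he _ hz t ht)
  have gh := A.repF_self (h s) y0
  have v := hE.val.ev (lh hq) he hz ht
  have w := h2.ev (lh hq) he hz ht
  have z2 := hE.hol.ev (lh hq) he hz ht
  have com := hE.com _ he _ hz t ht
  have crD := n1_n2 (M.repF (h s) (M.ch y0)) (ψ := fun w => a (M.ch y0) (t w))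
    (D.sm _ he _ hz t ht) (D.det_ne _) (ha.sm _ he _ hz t ht) (w.mono fun _ hw k i => (hw k i).1)
    Dt.cb_conj (ph _ he _ hz t ht).2
  have nE := n1_en (M.repF (h s) (M.ch y0)) (D.H ∘ t) v com
  generalize M.ch y0 y0 = z at *
  have gθ : grE (D.H (t z)) (th (D.H ∘ t) z) = τ y0 := by
    rw [gτ]
    ext i j
    rw [gr, grE, of_apply, of_apply, v.self_of_nhds, v.self_of_nhds, hE.ip]
  obtain ⟨-, t1, -, -, -, t3, -, t4⟩ := hT ι r (h s y0) (D.H (t z)) (th (D.H ∘ t) z)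
    (a (M.ch y0) (t z)) ⟨pd y0, D.pos _, D.reH _, fun k => by
      rw [th, transpose_smul, Matrix.smul_mul, Matrix.mul_smul, Dt.ca_sym]⟩
  have t1 := t1 fun k i => (w.self_of_nhds k i).2.1
  have t4 := t4 (SS (M.repF (h s) (M.ch y0)) (D.H ∘ t) z)
  have ND := (hN ι r _ _ (pd y0) (D.pos (t z))).1
  have NE := (hN ι _ _ _ (pd y0) (E.pos (t z))).1
  rw [gθ, ← gξ] at t1
  rw [← gξ] at t4
  have k1 : q1 (h s y0) (E.H (t z)) (n1 (M.repF (h s) (M.ch y0)) (E.H ∘ t)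
      (fun w => b (M.ch y0) (t w)) z) = (tg (h s y0) fun k l => tg (h s y0) fun i j =>
        ipE (D.H (t z)) (SS (M.repF (h s) (M.ch y0)) (D.H ∘ t) z k i)
          (SS (M.repF (h s) (M.ch y0)) (D.H ∘ t) z l j)).re := by
    simp only [q1, nE, hE.ip]
  have k2 : q1 (h s y0) (E.H (t z)) (fun k i => th (E.H ∘ t) z k *ᵥ b (M.ch y0) (t z) i) = 0 := by
    simp only [th, smul_mulVec, com, smul_zero]
    simp [q1, tg, ipV]
  rw [← k1] at t4
  rw [cr_zero _ z2, k2, F.ric s hs, t2_ric3 (pd y0)] at b2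
  rw [cr, gh, F.ric s hs, t2_ric3 (pd y0)] at b1
  simp only [crD, Function.comp_apply, Dt.ipV_add_left, tg_add, add_re] at b1
  have N2 := (hN ι r _ _ (pd y0) (D.pos (t z))).2.2.2.2.2
  have pg := (((A.isK_iff g).1 F.kg).2 y0).posSemidef
  have e0 := (ee_mem hs.1).1.le
  have q := num n1' hs.1 (NE _).1 (a := t2 (h s y0) (ξ y0) (ξ y0))
    (b := t2 (h s y0) (τ y0) (τ y0)) (lp := M.lap (h s) (fun y => trm (h s y) (ξ y)) y0)
    (lt := M.lap (h s) (fun y => trm (h s y) (τ y)) y0) (by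
      rw [b1]
      linarith [(ND (n1 (M.repF (h s) (M.ch y0)) (D.H ∘ t) (fun w => a (M.ch y0) (t w)) z)).1,
        (ND (n2 (D.H ∘ t) (fun w => a (M.ch y0) (t w)) z)).2.1,
        (ND fun k i => (th (D.H ∘ t) z k).map star *ᵥ a (M.ch y0) (t z) i).2.1,
        (N2 _ _ (F.pζ y0) (pτ y0)).1, mul_nonneg e0 (N2 _ _ (F.pζ y0) pg).1]) (by
      rw [b2, zero_re]
      linarith [(NE (n2 (E.H ∘ t) (fun w => b (M.ch y0) (t w)) z)).2.1,
        (NE fun k i => (th (E.H ∘ t) z k).map star *ᵥ b (M.ch y0) (t z) i).2.1,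
        mul_nonneg hs.1.le (N2 _ _ (pτ y0) (F.pζ y0)).1, mul_nonneg e0 (N2 _ _ (pτ y0) pg).1])
    (mat.sq ι _ _ (pd y0) (F.pζ y0)).1 (mat.sq ι _ _ (pd y0) (pτ y0)).1
    ((sq_le_sq' (abs_le.1 (abs_re_le_norm _)).1 (re_le_norm _)).trans t4) m0
  have u1 := mul_le_mul_of_nonneg_left (hy0 (mem_univ y)) hs.1.le
  simp only [mul_add, ← mul_assoc, mul_div_cancel₀ _ hs.1.ne'] at u1
  have u2 := mat.trm_nonneg ι _ _ (pd y) (pτ y)
  have u3 := mul_nonneg hs.1.le (mat.trm_nonneg ι _ _ (pd y) (F.pζ y))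
  have u4 := mul_le_mul_of_nonneg_right n1' u2
  constructor <;> linarith

end Pool.Agent.Lib.MP_813db1_ag.VH.E1
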