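import Pool.Agent.Lib.MP_813db1_ag.VH.E1.Stage
import Pool.Agent.Lib.MP_813db1_ag.VH.RSt2

/-! The second stage, without the assumption that the class is a Kaehler class. -/

namespace Pool.Agent.Lib.MP_813db1_ag.VH.E1

open Pool.Agent.Lib.MP_813db1_ag.HS Pool.Agent.Lib.MP_813db1_ag.AS
open MeasureTheory Complex Matrix Filter Topology Set
open scoped ContDiff ComplexOrder

open St2a in
theorem st2E {ι X Y G : Type} [Fintype ι] [DecidableEq ι] [Nonempty ι] [TopologicalSpace X]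
    [T2Space X] [CompactSpace X] [ConnectedSpace X] [MeasurableSpace X] [BorelSpace X]
    [TopologicalSpace Y] [SimplyConnectedSpace Y] [Group G]
    [MulAction G Y] {M : Atl ι X} {p : Y → X} (hq : IsQuotientCoveringMap p G) (hN : AlgN)
    (hO : AlgO) (hL : BoL) (hB : BoG M p G) (hE : EnS M p G) (hM : MmS M p G) (hR : RkS M p G)
    (hS : Sub2 M p G) (hfr : FrmS M p G) {g : X → Mat ι} {μ : Measure X} (hg : M.IsK g)
    (hμ : M.IsVol g μ) (nef : NefA M g) {r : Type} [Fintype r] [DecidableEq r] (D : Dt M p G r)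
    (τ σ : X → Mat ι) (C : ℝ) (pD : D.PH) (tD : D.Tau τ) (cσ : M.ClF σ)
    (pσ : ∀ y, (σ y).PosSemidef) (C1 : 1 ≤ C)
    (kc : 0 < vl g μ fun y => -M.ricF g y + ((C : ℂ) • τ y + σ y)) :
    ∃ (m : ℕ) (E : Dt M p G (Fin (2 * m))) (Q' : Mat (Fin (2 * m)))
      (c' : G → V (Fin (2 * m))) (x' : Y → V (Fin (2 * m))) (ξ' : X → Mat ι) (v : ℝ), 0 < v ∧
      E.Vh Q' c' x' ξ' ∧ (∀ y, (τ y - ξ' y).PosSemidef) ∧
      ∀ t : ℝ, vl g μ (fun y => -M.ricF g y + (σ y + (t : ℂ) • ξ' y)) = v * t ^ m := by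
  have A := AY.repA' ι X M
  have := ((AY.volS' ι X M g hg).2 μ hμ).fin
  obtain ⟨cτ, pτ⟩ := tau_ok hq hfr pD tD
  obtain ⟨u, h, Fa⟩ := famE hg hμ nef (A.clF_add _ _ (A.clF_smul C τ cτ) cσ)
    (fun y => (psd_smul (pτ y) (zero_le_one.trans C1)).add (pσ y)) kc cσ pσ cτ pτ fun s hs => by
      have C0 : 0 < C := one_pos.trans_le C1
      have l : s / C ≤ 1 := (div_le_one C0).2 (hs.2.trans C1)
      refine ⟨s / C, ⟨div_pos hs.1 C0, l⟩, fun x => ?_⟩
      convert psd_smul (pσ x) (sub_nonneg.2 l) using 1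
      rw [smul_add, smul_smul, ← ofReal_mul, div_mul_cancel₀ _ C0.ne']
      push_cast
      module
  obtain ⟨E, a, k⟩ := hE r D τ pD tD
  choose! u' h' f1 f2 f3 using Fa.fm
  choose! en e1 e2 using fun s hs => en_ex (s := s) hq hN hO hL hB hM (f1 s hs) k hs
  replace e1 := fun s hs => f3 s hs ▸ e1 s hs
  replace e2 := fun s hs => f3 s hs ▸ e2 s hs
  obtain ⟨m, v, F, s, ρ, S⟩ := stageE hq hN hO hM Fa E a en _ k.f e1
  have sa := S.pj.sa
  have sq := S.pj.sq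
  have nF : ∀ y, nE (E.H y) (F y) = m := fun y => by
    rw [nE_pj (E.pos y) (sa y) (sq y), S.pj.tr, natCast_re]
  have dρ : ∀ j, Loc M p fun e z t =>
      ρ j (e.symm z) = nE (E.H (t z)) (F (t z) - (s j : ℂ) • E.mM (h (s j)) a (t z)) :=
    fun j e he z hz t ht => (sec_pt ht ▸ S.dist j (t z)).trans (nE_neg _ _)
  have ρ0 : ∀ j x, 0 ≤ ρ j x := fun j x => by
    obtain ⟨y, rfl⟩ := hq.surjective x
    exact S.dist j y ▸ ((hN ι _ _ _ PosDef.one (E.pos y)).2.1 _).1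
  obtain ⟨φ, φ1, φ2⟩ := desc hq E hg (se1 E) (se1 E)
  obtain ⟨c', hc'⟩ := (isCompact_range φ1).bddAbove
  set c := |c'|
  have hc : Loc M p fun e z t => trm (M.repF g e z) (grE (E.H (t z)) (th (E.H ∘ t) z)) ≤ c :=
    fun e he z hz t ht => by
      have := (hc' (mem_range_self (e.symm z))).trans (le_abs_self c')
      simpa only [φ2 e he z hz t ht, Matrix.one_mul, Matrix.mul_one] using this
  have key : ∀ P P', E.Se P → E.Se P' → (∀ j, Loc M p fun e z t => ∃ B C : ι → Mat (r × r),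
      (∀ i, P (t z) * th (E.H ∘ t) z i * P' (t z) = B i + C i) ∧
      trm (M.repF g e z) (grE (E.H (t z)) fun i => P (t z) * th (E.H ∘ t) z i * P' (t z)) ≤ c * m ∧
      trm (M.repF g e z) (grE (E.H (t z)) B) ≤ c * ρ j (e.symm z) ∧
      trm (M.repF (h (s j)) e z) (grE (E.H (t z)) C) ≤ Fintype.card ι * en (s j) (e.symm z)) →
      Loc M p fun _ z t => ∀ i, P (t z) * ca (E.H ∘ t) i z * P' (t z) = 0 := by
    intro P P' hP hP' H e he z hz t ht i
    obtain ⟨ψ, ψ1, ψ2⟩ := desc hq E hg hP hP'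
    have z0 := S.zero ψ (fun j x => 2 * Fintype.card ι * en (s j) x) (c * (m + 2)) ψ1
      (fun j => continuous_const.mul (e1 _ (S.mem j)).1)
      (fun j x => mul_nonneg (by positivity) ((e1 _ (S.mem j)).2.1 x).1)
      (by simpa only [av_mul, mul_zero] using S.en0.const_mul (2 * (Fintype.card ι : ℝ)))
      (fun j x => by
        obtain ⟨e, he, z, hz, t, ht, rfl, R⟩ := base (M := M) hq x
        obtain ⟨B, C, h0, h1, h2, h3⟩ := H j e he z hz t ht
        rw [ψ2 e he z hz t ht, ← R g, ← R (h _), mul_assoc 2]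
        exact pt hN ((hg e he).2 z hz) ((Fa.k _ (S.mem j) e he).2 z hz) (E.pos _) h0 (abs_nonneg _)
          (Nat.cast_nonneg _) (ρ0 _ _) h1 h2 h3) (e.symm z)
    rw [ψ2 e he z hz t ht] at z0
    obtain ⟨q, q', -⟩ := (hN ι _ _ _ ((hg e he).2 z hz) (E.pos (t z))).2.2.2.1
      fun i => P (t z) * th (E.H ∘ t) z i * P' (t z)
    simpa [th] using q' (z0.antisymm (Mat.trm_nonneg ((hg e he).2 z hz) q)) i
  have tb : Loc M p fun e z t => ∀ Z,
      trm (M.repF g e z) (grE (E.H (t z)) fun i => th (E.H ∘ t) z i * Z) ≤ c * nE (E.H (t z)) Z ∧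
      trm (M.repF g e z) (grE (E.H (t z)) fun i => Z * th (E.H ∘ t) z i) ≤ c * nE (E.H (t z)) Z :=
    fun e he z hz t ht Z => by
      obtain ⟨-, q, -, q', -⟩ := hN ι _ _ _ ((hg e he).2 z hz) (E.pos (t z))
      have := mul_le_mul_of_nonneg_right (hc e he z hz t ht) (q Z).1
      exact ⟨((q' _).2.2.2 Z).1.trans this, ((q' _).2.2.2 Z).2.trans this⟩
  have k1 := key _ F (se1 E) S.pj.toSe fun j e he z hz t ht =>
    ⟨fun i => th (E.H ∘ t) z i * (F (t z) - (s j : ℂ) • E.mM (h (s j)) a (t z)), fun _ => 0,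
      fun i => by simp [Matrix.mul_sub, (e2 _ (S.mem j) e he z hz t ht).1 i],
      by simpa only [Matrix.one_mul, nF] using (tb e he z hz t ht (F (t z))).1,
      dρ j e he z hz t ht ▸ (tb e he z hz t ht _).1, le_of_eq_of_le
        (by simpa using grE_smul _ 0 (fun _ => 0))
        (mul_nonneg (Nat.cast_nonneg _) ((e1 _ (S.mem j)).2.1 _).1)⟩
  have k2 := key F _ S.pj.toSe (se1 E) fun j e he z hz t ht =>
    ⟨fun i => (F (t z) - (s j : ℂ) • E.mM (h (s j)) a (t z)) * th (E.H ∘ t) z i, _,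
      fun i => by simp [Matrix.sub_mul],
      by simpa only [Matrix.mul_one, nF] using (tb e he z hz t ht (F (t z))).2,
      dρ j e he z hz t ht ▸ (tb e he z hz t ht _).2, (e2 _ (S.mem j) e he z hz t ht).2⟩
  obtain ⟨E', Q', c', x', ξ', V, hξ⟩ := hS _ E a τ F m k.f S.pj fun e he z hz t ht i =>
    ⟨by simpa using k1 e he z hz t ht i, by
      have b : (cb (E.H ∘ t) i z)ᵀ = (ca (E.H ∘ t) i z)ᴴ := by
        rw [← Dt.ca_conj, conjTranspose, transpose_map]
      have := k2 e he z hz t ht i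
      rw [Matrix.mul_one] at this
      rw [← nonsing_inv_mul_cancel_left _ (cb _ i z * _) (E.det_ne (t z)).isUnit,
        ← Matrix.mul_assoc (E.H _), ← Dt.cb_sym, b, Matrix.mul_assoc _ (E.H _), sa,
        ← Matrix.mul_assoc _ _ (E.H _), ← conjTranspose_mul, this]
      simp,
      fun j => ⟨k.hol e he z hz t ht i j, k.cls e he z hz t ht i j⟩⟩
  have d : ∀ x, (τ x - ξ' x).PosSemidef ∧ ∀ j, s j * trm (h (s j) x) (τ x - ξ' x) ≤
      √(Fintype.card (r × r)) * √(ρ j x) := fun x => by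
    obtain ⟨e, he, z, hz, t, ht, rfl, R⟩ := base (M := M) hq x
    rw [← R τ, ← R ξ', k.f.gr e he z hz t ht, hξ e he z hz t ht, gr_sub (E.reH _) (sa _) (sq _)]
    refine ⟨(hN ι _ _ _ PosDef.one (E.pos _)).2.2.1 _, fun j => ?_⟩
    have ph := (Fa.k _ (S.mem j) e he).2 z hz
    have o := ((hO ι _ _ _ (a e (t z)) ph (E.pos (t z)) (E.reH _)).2.2.2.2.2.1 (1 - F (t z))).1
    have b := ((hN ι _ _ _ ph (E.pos (t z))).2.2.2.2.1 (1 - F (t z))
      ((s j : ℂ) • E.mM (h (s j)) a (t z) - F (t z))).2.2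
    rw [← S.dist, sec_pt ht, nE_pj (E.pos _) (sa1 (sa _)) (sq1 (sq _)), Matrix.mul_sub,
      Matrix.sub_mul 1 _ (F _), sq, Matrix.one_mul, sub_self, sub_zero, Matrix.mul_smul, trace_smul,
      ((hM _ E a τ _ k.f (Fa.k _ (S.mem j))).2.2 e he z hz t ht).1, o, trace_sub, trace_one,
      S.pj.tr] at b
    rw [← R (h _), ← tg_eq, ← re_ofReal_mul, ← Real.sqrt_mul (Nat.cast_nonneg _)]
    refine (re_le_norm _).trans (Real.le_sqrt_of_sq_le (le_trans (le_of_eq ?_) (b.trans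
      (mul_le_mul_of_nonneg_right (by simp) (ρ0 _ _)))))
    simp only [gr, of_apply, ip_pj (E.reH _) (sa1 (sa _)) (sq1 (sq _)), smul_eq_mul]
  refine ⟨m, E', Q', c', x', ξ', v, S.pos, V, fun y => (d y).1, powE Fa ξ' m v _ s V.cl
    (fun x => ⟨(d x).1, V.psd x, (hR m E' Q' x' ξ' V.pol V.xi).1 x⟩)
    (fun j => ⟨S.mem j, fun x => ((e1 _ (S.mem j)).2.1 x).2⟩) S.lim S.ord ?_⟩
  have l := S.conv'.const_mul √(Fintype.card (r × r) : ℝ)
  simp only [← av_mul, mul_zero] at l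
  have n : ∀ j x, 0 ≤ s j * trm (h (s j) x) (τ x - ξ' x) * rat (h (s j)) g x := fun j x =>
    mul_nonneg (mul_nonneg (S.mem j).1.le (Mat.trm_nonneg (((A.isK_iff _).1 (Fa.k _ (S.mem j))).2 x)
      (d x).1)) (rat_pos hg (Fa.k _ (S.mem j)) x).le
  have v0 : ∀ j, 0 ≤ vl g μ (h (s j)) := fun j =>
    integral_nonneg fun x => (rat_pos hg (Fa.k _ (S.mem j)) x).le
  refine squeeze_zero (fun j => div_nonneg (integral_nonneg (n j)) (v0 j)) (fun j => ?_) l
  have c1 := S.cont j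
  have c2 := rat_cont hg (Fa.k _ (S.mem j))
  exact div_le_div_of_nonneg_right (integral_mono_of_nonneg (.of_forall (n j))
    (Den.intg (by fun_prop)) (.of_forall fun x => mul_le_mul_of_nonneg_right ((d x).2 j)
      (rat_pos hg (Fa.k _ (S.mem j)) x).le)) (v0 j)

end Pool.Agent.Lib.MP_813db1_ag.VH.E1
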