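import Pool.Agent.Lib.MP_813db1_ag.VH.E1.St1
import Pool.Agent.Lib.MP_813db1_ag.VH.E1.St2
import Pool.Agent.Lib.MP_813db1_ag.VH.E1.Fin
import Pool.Agent.Lib.MP_813db1_ag.VH.E1.Ex
import Pool.Agent.Lib.MP_813db1_ag.VH.All7

/-! Rigidity when one Kaehler form is exact on the covering space. -/

namespace Pool.Agent.Lib.MP_813db1_ag.VH.E1

open Pool.Agent.Lib.MP_813db1_ag.HS Pool.Agent.Lib.MP_813db1_ag.AS
open MeasureTheory Complex Matrix Filter Topology Set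
open scoped ContDiff ComplexOrder

variable {ι X Y G : Type} [Fintype ι] [DecidableEq ι] [Nonempty ι] [TopologicalSpace X] [T2Space X]
  [CompactSpace X] [ConnectedSpace X] [MeasurableSpace X] [BorelSpace X] [ChartedSpace (ι → ℂ) X]
  [TopologicalSpace Y] [SimplyConnectedSpace Y] [Group G] [MulAction G Y] {M : Atl ι X} {p : Y → X}

theorem rigE (hat : atlas (ι → ℂ) X ⊆ M.A) (hq : IsQuotientCoveringMap p G) {g : X → Mat ι}
    {μ : Measure X} (hg : M.IsK g) (hμ : M.IsVol g μ) (hN : NefA M g) (hE : ExF M g p) {r : Type}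
    [Fintype r] [DecidableEq r] (D : Dt M p G r) (Q : Mat r) (c : G → V r) (x : Y → V r)
    (τ ξ : X → Mat ι) (hP : D.PH) (hA : D.Aff c x) (hX : D.PX x) (hQ : D.Pol Q x) (hτ : D.Tau τ)
    (hξ : D.Xi x ξ) (hC : 0 < vl g μ fun a => -M.ricF g a + (τ a + ξ a)) :
    ∃ (m : ℕ) (E : Dt M p G (Fin (2 * m))) (Q' : Mat (Fin (2 * m))) (c' : G → V (Fin (2 * m)))
      (x' : Y → V (Fin (2 * m))) (h ξ' : X → Mat ι), E.Spl Q' c' x' h ξ' := by
  have A := AY.repA' ι X M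
  have b : BoG M p G := boG hq boL
  obtain ⟨cτ, pτ⟩ := tau_ok hq (frmS hq) hP hτ
  obtain ⟨m, E, Q1, c1, x1, ξ1, v, hv, k1, w1⟩ := st1E hq algN (algO algN) (algT algN) boL b
    (hr1 hq) (etaS hq) (enS hq) (mmS hq) (rkS hq) (sub1 hq) hg hμ hN D Q c x τ ξ hP hA hX hQ hτ hξ hC
  have n0 : (0 : ℝ) ≤ Fintype.card ι := Nat.cast_nonneg _
  have cC := A.clF_smul (Fintype.card ι + 1 : ℝ) τ cτ
  have kc : 0 < vl g μ fun y => -M.ricF g y + (((Fintype.card ι + 1 : ℝ) : ℂ) • τ y + ξ1 y) := by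
    have := w1 1
    simp only [ofReal_one, one_smul, one_pow, mul_one] at this
    exact hv.trans_eq this.symm
  obtain ⟨m', E', Q2, c2, x2, ξ2, v', hv', k2, le, w2⟩ := st2E hq algN (algO algN) boL b (enS hq)
    (mmS hq) (rkS hq) (sub2 hq) (frmS hq) hg hμ hN D τ ξ1 _ hP hτ k1.cl k1.psd (by linarith) kc
  have w3 := twoV g μ hg hμ hN _ ξ1 ξ2 m m' v v' cC k1.cl k2.cl (fun y => ⟨k1.psd y, k2.psd y, by
    have := (psd_smul (pτ y) n0).add (le y)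
    rwa [ofReal_add, add_smul, ofReal_one, one_smul, add_sub_assoc],
    (rkS hq m E Q1 x1 ξ1 k1.pol k1.xi).1 y⟩) w1 w2
  obtain ⟨E3, Q3, c3, x3, k3⟩ := sumP m m' E E' Q1 c1 x1 ξ1 Q2 c2 x2 ξ2 k1 k2
  obtain ⟨cg, pg⟩ := (A.isK_iff g).1 hg
  obtain ⟨h, k⟩ := finE hq algN (algO algN) (algT algN) b (etaS hq) (rkS hq) hg hμ E3 Q3 c3 x3 _ v'
    hv' k3 (kb hat hq hg hμ hN k3.cl k3.psd hE (exPol hat hq k3.aff.1 k3.pol k3.xi
      ((A.isK_iff _).2 ⟨A.clF_add _ _ cg k3.cl, fun y => (pg y).add_posSemidef (k3.psd y)⟩) hE) (by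
      have := w3 1
      simp only [ofReal_one, one_smul, one_pow, mul_one] at this
      exact hv'.trans_eq this.symm)) w3
  exact ⟨_, E3, Q3, c3, x3, h, _, k⟩

end Pool.Agent.Lib.MP_813db1_ag.VH.E1
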