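import Pool.Agent.Lib.MP_813db1_ag.VH.E1.Stage
import Pool.Agent.Lib.MP_813db1_ag.VH.E1.Q0
import Pool.Agent.Lib.MP_813db1_ag.VH.Frm

/-! The first stage, without the assumption that the class is a Kaehler class. -/

namespace Pool.Agent.Lib.MP_813db1_ag.VH.E1

open Pool.Agent.Lib.MP_813db1_ag.HS Pool.Agent.Lib.MP_813db1_ag.AS F12
open MeasureTheory Complex Matrix Filter Topology Set
open scoped ContDiff ComplexOrder

set_option linter.unusedSectionVars false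

variable {ι X Y G : Type} [Fintype ι] [DecidableEq ι] [TopologicalSpace X] [T2Space X]
  [CompactSpace X] [MeasurableSpace X] [BorelSpace X] [TopologicalSpace Y] [Group G] [MulAction G Y]
  {M : Atl ι X} {p : Y → X}

namespace S1

open St1a

variable {r : Type} [Fintype r] [DecidableEq r] {D : Dt M p G r} {g τ ξ : X → Mat ι}
  {μ : Measure X} {u : ℝ → X → ℝ} {h : ℝ → X → Mat ι} {a : Ch ι X → Y → ι → V r} {B : ℝ}

/-- the data of the first stage. -/
structure Dat (D : Dt M p G r) (g τ ξ : X → Mat ι) (μ : Measure X) (u : ℝ → X → ℝ)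
    (h : ℝ → X → Mat ι) (a : Ch ι X → Y → ι → V r) (B : ℝ) : Prop where
  fm : Fe M g μ (fun y => ((Fintype.card ι + 1 : ℝ) : ℂ) • τ y) ξ u h
  ph : D.PH
  f : D.F10 a ξ
  sτ : M.SmF τ
  tau : Loc M p fun e z s => M.repF τ e z = grE (D.H (s z)) (th (D.H ∘ s) z)
  eta : Loc M p fun e z s => ∀ k i,
    n2 (D.H ∘ s) (fun w => a e (s w)) z k i = th (D.H ∘ s) z i *ᵥ star (a e (s z) k) ∧
    th (D.H ∘ s) z k *ᵥ a e (s z) i = th (D.H ∘ s) z i *ᵥ a e (s z) k ∧
    dV (fun w => a e (s w) i) k z = dV (fun w => a e (s w) k) i z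
  bd : ∀ s ∈ Ioc (0 : ℝ) 1, ∀ y, s * trm (h s y) (ξ y) ≤ B ∧ trm (h s y) (τ y) ≤ B

theorem Dat.sξ (d : Dat D g τ ξ μ u h a B) : M.SmF ξ := fun e he => (d.fm.cζ e he).1

theorem Dat.bdl (d : Dat D g τ ξ μ u h a B) {t : ℝ} (ht : t ∈ Ioc (0 : ℝ) 1) :
    Loc M p fun e z s => t * trm (M.repF (h t) e z) (gr (D.H (s z)) (a e (s z))) ≤ B ∧
      trm (M.repF (h t) e z) (grE (D.H (s z)) (th (D.H ∘ s) z)) ≤ B ∧
      t2 (h t (e.symm z)) (ξ (e.symm z)) (τ (e.symm z)) = t2 (M.repF (h t) e z)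
        (gr (D.H (s z)) (a e (s z))) (grE (D.H (s z)) (th (D.H ∘ s) z)) :=
  fun e he z hz s hs => by
    beta_reduce
    rw [← d.f.gr e he z hz s hs, ← d.tau e he z hz s hs, ← trm_loc he hz, ← trm_loc he hz]
    exact ⟨(d.bd t ht _).1, (d.bd t ht _).2, t2_loc he hz _ _ _⟩

variable (hq : IsQuotientCoveringMap p G) (hN : AlgN) (hO : AlgO) (hT : AlgT)
include hq hN hO hT

/-- the energy. -/
theorem en_ex (hB : BoG M p G) (hM : MmS M p G) (d : Dat D g τ ξ μ u h a B) {t : ℝ}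
    (ht : t ∈ Ioc (0 : ℝ) 1) : ∃ en : X → ℝ, Continuous en ∧
      (∀ x, 0 ≤ t * t2 (h t x) (ξ x) (τ x) ∧ t * t2 (h t x) (ξ x) (τ x) ≤ en x) ∧
      ∫ x, (en x + t ^ 2 * t2 (h t x) (ξ x) (ξ x) - t * trm (h t x) (ξ x)) * rat (h t) g x ∂μ ≤ 0 ∧
      Loc M p fun e z s => t ^ 2 * trm (M.repF (h t) e z)
        (grE (D.H (s z)) (nF (D.H ∘ s) (D.mM (h t) a ∘ s) z)) ≤
          (2 * Fintype.card ι + 3) * B * en (e.symm z) := by
  have hk := d.fm.k t ht
  obtain ⟨N1, N2, T1, T2, c1, c2, c3, c4, c5, f1, f2, f3, f4, hI⟩ :=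
    hB g μ (h t) d.fm.kg d.fm.vol hk r D a ξ d.ph d.f
  have c6 := cont_t2 hk d.sξ d.sτ
  have kg : ∀ x, 0 ≤ t * (ee t * t2 (h t x) (ξ x) (g x)) := fun x => mul_nonneg ht.1.le
    (mul_nonneg (ee_mem ht.1).1.le ((hN ι ι _ _ ((((AY.repA' ι X M).isK_iff _).1 hk).2 x)
      PosDef.one).2.2.2.2.2 _ _ (d.fm.pζ x)
        ((((AY.repA' ι X M).isK_iff _).1 d.fm.kg).2 x).posSemidef).1)
  have key : ∀ x, 0 ≤ t2 (h t x) (ξ x) (τ x) ∧ 0 ≤ N1 x ∧ N2 x = T2 x ∧
      T1 x ≤ Fintype.card ι * t2 (h t x) (ξ x) (τ x) := all_of hq M fun e he z hz s hs => by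
    have pt := pt_loc D hk he hz s
    have et := d.eta e he z hz s hs
    obtain ⟨n1, -, n3, n4, -, n6⟩ := hN ι r _ _ pt.ph pt.pH
    obtain ⟨-, t2, -, -, t5, -⟩ := hT ι r _ _ _ (a e (s z)) pt
    beta_reduce
    rw [(d.bdl ht e he z hz s hs).2.2, f1 e he z hz s hs, f2 e he z hz s hs, f3 e he z hz s hs,
      f4 e he z hz s hs]
    beta_reduce
    rw [funext₂ fun k i => (et k i).1]
    exact ⟨(n6 _ _ (n3 _) (n4 _).1).1, (n1 _).1, t5, t2 fun k i => (et k i).2.1⟩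
  refine ⟨fun x => t * N1 x + t * t2 (h t x) (ξ x) (τ x), by fun_prop,
    fun x => ⟨mul_nonneg ht.1.le (key x).1, le_add_of_nonneg_left (mul_nonneg ht.1.le (key x).2.1)⟩,
    ?_, fun e he z hz s hs => ?_⟩
  · have c7 := cont_t2 hk d.sξ d.sξ
    have c8 := cont_trm hk d.sξ
    refine (int_mono (f' := fun x => t * (N1 x - N2 x + T2 x - T1 x +
      t2 (h t x) (ξ x) (M.ricF (h t) x))) d.fm.kg d.fm.vol hk (by fun_prop) (by fun_prop)
      fun x => ?_).trans_eq ?_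
    · rw [d.fm.ric t ht, t2_ric3 ((((AY.repA' ι X M).isK_iff _).1 hk).2 x), (key x).2.2.1]
      nlinarith [mul_le_mul_of_nonneg_left (key x).2.2.2 ht.1.le, kg x]
    · simp only [mul_assoc]
      rw [integral_const_mul, hI, mul_zero]
  · have b := d.bdl ht e he z hz s hs
    beta_reduce
    rw [funext ((hM r D a ξ _ d.f hk).2.2 e he z hz s hs).2, f1 e he z hz s hs, b.2.2,
      funext₂ fun k i => (d.eta e he z hz s hs k i).1]
    exact energy hN hO hT (pt_loc D hk he hz s) _ ht.1.le b.1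

variable {en : ℝ → X → ℝ} {m : ℕ} {v : ℝ} {F : Y → Mat r} {t : ℕ → ℝ} {ρ : ℕ → X → ℝ}
  {σ : X → Mat ι}

omit hN hO hT in
theorem rho_loc (hM : MmS M p G) (d : Dat D g τ ξ μ u h a B)
    (S : Stg D g μ σ ξ h a en m v F t ρ) (j : ℕ) : Loc M p fun e z s => ρ j (e.symm z) =
      nE (D.H (s z)) ((t j : ℂ) • ou (M.repF (h (t j)) e z) (D.H (s z)) (a e (s z)) (a e (s z)) -
        F (s z)) := fun e he z hz s hs => by
  beta_reduce
  rw [← sec_pt hs, S.dist, ((hM r D a ξ _ d.f (d.fm.k _ (S.mem j))).2.2 e he z hz s hs).1]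

omit hT in
/-- a function that is bounded by a multiple of the distance to the projector vanishes. -/
theorem zero' (hM : MmS M p G) (d : Dat D g τ ξ μ u h a B)
    (S : Stg D g μ σ ξ h a en m v F t ρ) {φ : X → ℝ} {f : ℕ → X → ℝ} {C : ℝ} (C0 : 0 ≤ C)
    (c : Continuous φ) (cf : ∀ j, Continuous (f j)) (f0 : ∀ j x, 0 ≤ f j x)
    (tf : Tendsto (fun j => av g μ (h (t j)) (f j)) atTop (𝓝 0))
    (le : ∀ j x, φ x ≤ trm (g x) (h (t j) x) * f j x + C * ρ j x) (x : X) : φ x ≤ 0 := by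
  refine S.zero φ f (C * √(2 * B ^ 2 + 2 * Fintype.card r)) c cf f0 tf (fun j x => ?_) x
  rw [mul_assoc]
  refine (le j x).trans (add_le_add_right (mul_le_mul_of_nonneg_left ?_ C0) _)
  revert x
  refine all_of hq M fun e he z hz s hs => ?_
  beta_reduce
  rw [rho_loc hq hM d S j e he z hz s hs]
  exact rho_le hN hO (pt_loc D (d.fm.k _ (S.mem j)) he hz s) ⟨S.pj.sa _, S.pj.sq _⟩ (S.mem j).1.le
    (d.bdl (S.mem j) e he z hz s hs).1

omit hT in
/-- the projector maps into the eigenspace. -/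
theorem pol_zero (hM : MmS M p G) (d : Dat D g τ ξ μ u h a B)
    (S : Stg D g μ σ ξ h a en m v F t ρ) {A : Y → Mat r} (hA : Eqv D A)
    (h0 : Loc M p fun e z s => ∀ k, A (s z) *ᵥ a e (s z) k = 0) (y : Y) : A y * F y = 0 := by
  obtain ⟨φ, c, hφ⟩ := nE_desc hq (hA.mul ⟨S.pj.sm, S.pj.eqv⟩)
  obtain ⟨ψ, c', hψ⟩ := nE_desc hq hA
  obtain ⟨C, C0, hC⟩ := bdd c'
  have n := (hN r r _ _ (D.pos y) (D.pos y)).2.1 (A y * F y)
  refine n.2 (le_antisymm ?_ n.1)
  rw [← hφ]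
  refine zero' hq hN hO hM d S (f := fun _ _ => 0) C0 c (fun _ => continuous_const)
    (fun _ _ => le_rfl) (by simp [av]) (fun j => all_of hq M fun e he z hz s hs => ?_) _
  have pt := pt_loc D (d.fm.k _ (S.mem j)) he hz s
  beta_reduce
  rw [mul_zero, zero_add, rho_loc hq hM d S j e he z hz s hs, ← sec_pt hs, hφ]
  refine (pol_le hN hO pt (h0 e he z hz s hs) (t j)).trans (mul_le_mul_of_nonneg_right ?_
    ((hN ι r _ _ pt.ph pt.pH).2.1 _).1)
  rw [← hψ]
  exact hC _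

omit hT in
/-- a component of the Higgs field vanishes. -/
theorem th_zero (hM : MmS M p G) (d : Dat D g τ ξ μ u h a B)
    (S : Stg D g μ σ ξ h a en m v F t ρ) {A A' : Y → Mat r} (hA : Eqv D A) (hA' : Eqv D A')
    {f : ℕ → X → ℝ} {c : ℝ} (c0 : 0 ≤ c) (cf : ∀ j, Continuous (f j)) (f0 : ∀ j x, 0 ≤ f j x)
    (tf : Tendsto (fun j => av g μ (h (t j)) (f j)) atTop (𝓝 0))
    (le : ∀ j, Loc M p fun e z s => trm (M.repF g e z)
      (grE (D.H (s z)) fun k => A (s z) * th (D.H ∘ s) z k * A' (s z)) ≤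
      trm (M.repF g e z) (M.repF (h (t j)) e z) * f j (e.symm z) +
        2 * (trm (M.repF g e z) (grE (D.H (s z)) (th (D.H ∘ s) z)) * c) * ρ j (e.symm z)) :
    Loc M p fun _ z s => ∀ k, A (s z) * ca (D.H ∘ s) k z * A' (s z) = 0 := by
  obtain ⟨κ, sκ, hκ⟩ := grE_desc hq hA hA'
  obtain ⟨C, C0, hC⟩ := bdd (cont_trm d.fm.kg d.sτ)
  have key := zero' hq hN hO hM d S (C := 2 * (C * c)) (by positivity) (cont_trm d.fm.kg sκ) cf f0
    tf fun j => all_of hq M fun e he z hz s hs => by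
      have pt := pt_loc D d.fm.kg he hz s
      beta_reduce
      rw [trm_loc he hz, trm_loc he hz, hκ e he z hz s hs]
      refine (le j e he z hz s hs).trans (add_le_add_right (mul_le_mul_of_nonneg_right ?_ ?_) _)
      · rw [← d.tau e he z hz s hs, ← trm_loc he hz]
        have := hC (e.symm z)
        gcongr
      · rw [rho_loc hq hM d S j e he z hz s hs]
        exact ((hN ι r _ _ pt.ph pt.pH).2.1 _).1
  intro e he z hz s hs k
  have pt := pt_loc D d.fm.kg he hz s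
  have n := (hN ι r _ _ pt.ph pt.pH).2.2.2.1 fun k => A (s z) * th (D.H ∘ s) z k * A' (s z)
  have e1 := key (e.symm z)
  rw [trm_loc he hz, hκ e he z hz s hs] at e1
  have e2 := n.2.1 (le_antisymm e1 (Mat.trm_nonneg pt.ph n.1)) k
  rw [th, Matrix.mul_smul, Matrix.smul_mul, smul_eq_zero] at e2
  exact e2.resolve_left (by norm_num)

omit hT in
theorem perp_loc (hM : MmS M p G) (d : Dat D g τ ξ μ u h a B)
    (S : Stg D g μ σ ξ h a en m v F t ρ) {ζ : X → Mat ι}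
    (f : D.F10 (fun e y k => (1 - F y) *ᵥ a e y k) ζ) (j : ℕ) (x : X) :
    0 ≤ t j * trm (h (t j) x) (ζ x) ∧
      t j * trm (h (t j) x) (ζ x) ≤ √(Fintype.card r) * √(ρ j x) := by
  revert x
  refine all_of hq M fun e he z hz s hs => ?_
  have pt := pt_loc D (d.fm.k _ (S.mem j)) he hz s
  beta_reduce
  rw [trm_loc he hz, f.gr e he z hz s hs, rho_loc hq hM d S j e he z hz s hs]
  exact ⟨mul_nonneg (S.mem j).1.le (Mat.trm_nonneg pt.ph ((hN ι r _ _ pt.ph pt.pH).2.2.1 _)),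
    perp_le hN hO pt ⟨S.pj.sa _, S.pj.sq _⟩ _⟩

/-- the second order Stokes formula for the orthogonal part. -/
theorem hr_ex (hH : Hr1 M p G) (hM : MmS M p G) (d : Dat D g τ ξ μ u h a B)
    (S : Stg D g μ σ ξ h a en m v F t ρ) {ζ : X → Mat ι}
    (f : D.F10 (fun e y k => (1 - F y) *ᵥ a e y k) ζ) (ce : ∀ j, Continuous (en (t j)))
    (le : ∀ j x, t j * t2 (h (t j) x) (ξ x) (τ x) ≤ en (t j) x) :
    ∃ N : ℕ → X → ℝ, (∀ j, Continuous (N j)) ∧ (∀ j x, 0 ≤ t j * N j x) ∧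
      Tendsto (fun j => av g μ (h (t j)) fun x => t j * N j x) atTop (𝓝 0) ∧
      ∀ j, Loc M p fun e z s => N j (e.symm z) = q2 (M.repF (h (t j)) e z) (D.H (s z))
        fun k i => (1 - F (s z)) *ᵥ th (D.H ∘ s) z i *ᵥ star (a e (s z) k) := by
  have hk := fun j => d.fm.k _ (S.mem j)
  have e2 : Loc M p fun e z s => n2 (D.H ∘ s) (fun w k => (1 - F (s w)) *ᵥ a e (s w) k) z =
      fun k i => (1 - F (s z)) *ᵥ th (D.H ∘ s) z i *ᵥ star (a e (s z) k) :=
    fun e he z hz s hs => funext₂ fun k i => by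
      rw [← (d.eta e he z hz s hs k i).1]
      exact dVb_par (S.pj.sm e he z hz s hs).df (d.f.sm e he z hz s hs i).df
        (S.pj.parb e he z hz s hs k)
  choose N L T c1 c2 c3 f1 f2 f3 hI using fun j =>
    hH g μ (h (t j)) d.fm.kg d.fm.vol (hk j) r D _ ζ d.ph f fun e he z hz s hs k i => by
      have q := fun k i => dV_par (S.pj.sm e he z hz s hs).df (d.f.sm e he z hz s hs i).df
        (S.pj.par e he z hz s hs k)
      have e := d.eta e he z hz s hs k i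
      refine (q k i).trans (Eq.trans ?_ (q i k).symm)
      have e' := e.2.1
      simp only [th, neg_smul, neg_mulVec, neg_inj, smul_mulVec] at e'
      rw [e.2.2, e']
  have f1' : ∀ j, Loc M p fun e z s => N j (e.symm z) = q2 (M.repF (h (t j)) e z) (D.H (s z))
      fun k i => (1 - F (s z)) *ᵥ th (D.H ∘ s) z i *ᵥ star (a e (s z) k) :=
    fun j e he z hz s hs => (f1 j e he z hz s hs).trans (congrArg _ (e2 e he z hz s hs))
  have N0 : ∀ j x, 0 ≤ t j * N j x := fun j => all_of hq M fun e he z hz s hs => by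
    have pt := pt_loc D (hk j) he hz s
    beta_reduce
    rw [f1' j e he z hz s hs]
    exact mul_nonneg (S.mem j).1.le ((hN ι r _ _ pt.ph pt.pH).1 _).2.1
  refine ⟨N, c1, N0, av_zero d.fm.kg d.fm.vol hk (Fintype.card r * Fintype.card ι)
    (4 * Fintype.card ι * B * √(Fintype.card r)) ce (fun j => (S.cont j).sqrt) N0
    (fun j => ?_) S.en0 S.conv', f1'⟩
  have c4 := ce j
  have c5 := S.cont j
  have c6 := c2 j
  have c7 := c3 j
  refine le_trans ?_ (int_mono (f := fun x => t j * (L j x + T j x)) d.fm.kg d.fm.vol (hk j)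
    (by fun_prop) (by fun_prop) fun x => ?_)
  · simp only [mul_assoc, integral_const_mul]
    exact mul_le_mul_of_nonneg_left (hI j) (S.mem j).1.le
  have e3 := perp_loc hq hN hO hM d S f j x
  have e4 := mul_le_mul_of_nonneg_left (le j x)
    (show (0 : ℝ) ≤ Fintype.card r * Fintype.card ι by positivity)
  have e5 : (L j x ≤ Fintype.card r * Fintype.card ι * t2 (h (t j) x) (ξ x) (τ x) ∧ 0 ≤ B) ∧
      T j x ≤ 4 * Fintype.card ι * B * trm (h (t j) x) (ζ x) := by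
    refine all_of hq M (P := fun x => (L j x ≤ Fintype.card r * Fintype.card ι *
      t2 (h (t j) x) (ξ x) (τ x) ∧ 0 ≤ B) ∧ T j x ≤ 4 * Fintype.card ι * B * trm (h (t j) x) (ζ x))
      (fun e he z hz s hs => ?_) x
    have pt := pt_loc D (hk j) he hz s
    have b := d.bdl (S.mem j) e he z hz s hs
    obtain ⟨-, -, n3, n4, -⟩ := hN ι r _ _ pt.ph pt.pH
    beta_reduce
    rw [f2 j e he z hz s hs, f3 j e he z hz s hs]
    beta_reduce
    rw [e2 e he z hz s hs, b.2.2, trm_loc he hz, f.gr e he z hz s hs]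
    refine ⟨⟨div_le hN hO hT pt (Prj.cpl ⟨S.pj.sa _, S.pj.sq _⟩),
      (Mat.trm_nonneg pt.ph (n4 _).1).trans b.2.1⟩, (hT ι r _ _ _ _ pt).2.2.2.2.2.2.1.trans ?_⟩
    have := Mat.trm_nonneg pt.ph (n3 fun k => (1 - F (s z)) *ᵥ a e (s z) k)
    have := b.2.1
    gcongr
  have e6 := mul_le_mul_of_nonneg_left e5.1.1 (S.mem j).1.le
  have e7 := mul_le_mul_of_nonneg_left e5.2 (S.mem j).1.le
  have e8 := mul_le_mul_of_nonneg_left e3.2
    (show (0 : ℝ) ≤ 4 * Fintype.card ι * B by have := e5.1.2; positivity)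
  nlinarith

end S1

open St1a S1 in
theorem st1E [Nonempty ι] [ConnectedSpace X] [SimplyConnectedSpace Y]
    (hq : IsQuotientCoveringMap p G) (hN : AlgN) (hO : AlgO) (hT : AlgT) (hL : BoL)
    (hB : BoG M p G) (hH : Hr1 M p G) (hE : EtaS M p G) (hEn : EnS M p G) (hM : MmS M p G)
    (hR : RkS M p G) (hS : Sub1 M p G) {g : X → Mat ι} {μ : Measure X} (hg : M.IsK g)
    (hμ : M.IsVol g μ) (hn : NefA M g) {r : Type} [Fintype r] [DecidableEq r] (D : Dt M p G r)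
    (Q : Mat r) (c : G → V r) (x : Y → V r) (τ ξ : X → Mat ι) (ph : D.PH) (aff : D.Aff c x)
    (px : D.PX x) (pol : D.Pol Q x) (tau : D.Tau τ) (xi : D.Xi x ξ)
    (kc : 0 < vl g μ fun a => -M.ricF g a + (τ a + ξ a)) :
    ∃ (m : ℕ) (E : Dt M p G (Fin (2 * m))) (Q' : Mat (Fin (2 * m)))
      (c' : G → V (Fin (2 * m))) (x' : Y → V (Fin (2 * m))) (ξ' : X → Mat ι) (v : ℝ), 0 < v ∧
      E.Vh Q' c' x' ξ' ∧ ∀ t : ℝ, vl g μ (fun y => -M.ricF g y +
        (((Fintype.card ι + 1 : ℝ) : ℂ) • τ y + (t : ℂ) • ξ' y)) = v * t ^ m := by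
  have A := AY.repA' ι X M
  obtain ⟨⟨τ', t1, t2', t3, t4⟩, h2⟩ := frmS hq r D
  obtain ⟨ξ', x1, -, x3, x4⟩ := h2 c x aff
  obtain rfl : τ' = τ := form_ext hq fun e he z hz s hs =>
    (t1 e he z hz s hs).trans (tau e he z hz s hs).symm
  obtain rfl : ξ' = ξ := form_ext hq fun e he z hz s hs =>
    (x1 e he z hz s hs).trans (xi e he z hz s hs).symm
  have n0 : (0 : ℝ) ≤ Fintype.card ι := Nat.cast_nonneg _
  obtain ⟨u, h, fm⟩ := famE (σ := fun y => ((Fintype.card ι + 1 : ℝ) : ℂ) • τ' y) hg hμ hn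
    (A.clF_add _ _ (t4 ph) (x4 pol.rx px)) (fun y => (t3 y).add (x3 y)) kc
    (A.clF_smul _ _ (t4 ph))
    (fun y => (t3 y).smul (zero_le_real.2 (by positivity))) (x4 pol.rx px) x3
    fun s hs => ⟨s, hs, fun y => by
      rw [show ((Fintype.card ι + 1 : ℝ) : ℂ) • τ' y + (s : ℂ) • ξ' y - (s : ℂ) • (τ' y + ξ' y) =
        ((Fintype.card ι + 1 - s : ℝ) : ℂ) • τ' y by push_cast; module]
      exact (t3 y).smul (zero_le_real.2 (by linarith [hs.2]))⟩
  obtain ⟨a, f, ha, eta⟩ := hE r D c x ξ' aff xi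
  obtain ⟨B, hb⟩ := q0E hq hL hN hT hE hEn ph aff pol.rx px tau xi fm
  have d : Dat D g τ' ξ' μ u h a B := ⟨fm, ph, f, t2',
    fun e he z hz s hs => (tau e he z hz s hs).trans (tau_loc hT D z s), eta pol.rx px, hb⟩
  have B0 : 0 ≤ B := (Mat.trm_nonneg (((A.isK_iff _).1 (fm.k 1 ⟨one_pos, le_rfl⟩)).2
    (Classical.arbitrary X)) (t3 _)).trans (hb 1 ⟨one_pos, le_rfl⟩ _).2
  choose! en e1 e2 e3 e4 using fun t (ht : t ∈ Ioc (0 : ℝ) 1) => en_ex hq hN hO hT hB hM d ht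
  obtain ⟨m, v, F, t, ρ, S⟩ := stageE hq hN hO hM fm D a en ((2 * Fintype.card ι + 3) * B) f
    fun s hs => ⟨e1 s hs, fun y => ⟨(e2 s hs y).1.trans (e2 s hs y).2,
      (hb s hs y).1.trans (by nlinarith)⟩, e3 s hs, e4 s hs⟩
  have hk := fun j => fm.k _ (S.mem j)
  have qF : Eqv D F := ⟨S.pj.sm, S.pj.eqv⟩
  have pr : ∀ y, Prj (D.H y) (F y) := fun y => ⟨S.pj.sa y, S.pj.sq y⟩
  obtain ⟨ζ, fζ⟩ := f10_mul hq f ((Eqv.one D).sub qF)
  obtain ⟨N, c1, N0, tN, hNl⟩ := hr_ex hq hN hO hT hH hM d S fζ (fun j => e1 _ (S.mem j))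
    fun j y => (e2 _ (S.mem j) y).2
  have z1 := pol_zero hq hN hO hM d S ((Eqv.J pol).sub ((Eqv.one D).smul I))
    fun e he z hz s hs k => by
      rw [ha e he z hz s hs, sub_mulVec, pol.cr e he z hz s hs, smul_mulVec, one_mulVec, sub_self]
  have z2 := th_zero hq hN hO hM d S (Eqv.one D) qF (c := 1)
    (f := fun j y => 2 * Fintype.card ι * B * en (t j) y) zero_le_one
    (fun j => continuous_const.mul (e1 _ (S.mem j)))
    (fun j y => mul_nonneg (by positivity) ((e2 _ (S.mem j) y).1.trans (e2 _ (S.mem j) y).2))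
    (av_zero hg hμ hk (2 * Fintype.card ι * B) 0 (fun j => e1 _ (S.mem j))
      (fun j => e1 _ (S.mem j))
      (fun j y => mul_nonneg (by positivity) ((e2 _ (S.mem j) y).1.trans (e2 _ (S.mem j) y).2))
      (fun j => by simp) S.en0 S.en0)
    fun j e he z hz s hs => by
      have b := d.bdl (S.mem j) e he z hz s hs
      have pg := (hg e he).2 z hz
      have pt := pt_loc D (hk j) he hz s
      beta_reduce
      rw [mul_one, rho_loc hq hM d S j e he z hz s hs]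
      refine (higgs_le hN hO hT pt pg (fun k i => (d.eta e he z hz s hs k i).2.1) (S.mem j).1.le
        b.1).trans (add_le_add_left (mul_le_mul_of_nonneg_left (mul_le_mul_of_nonneg_left ?_
          (by positivity)) (Mat.trm_nonneg pg pt.ph.posSemidef)) _)
      rw [← b.2.2]
      exact (e2 _ (S.mem j) _).2
  have z3 := th_zero hq hN hO hM d S ((Eqv.one D).sub qF) qF.conj (c := Fintype.card r)
    (f := fun j y => 2 * B * (t j * N j y)) (Nat.cast_nonneg _)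
    (fun j => continuous_const.mul (continuous_const.mul (c1 j)))
    (fun j y => mul_nonneg (by positivity) (N0 j y))
    (av_zero hg hμ hk (2 * B) 0 (fun j => continuous_const.mul (c1 j))
      (fun j => e1 _ (S.mem j)) (fun j y => mul_nonneg (by positivity) (N0 j y))
      (fun j => by simp) tN S.en0)
    fun j e he z hz s hs => by
      beta_reduce
      rw [rho_loc hq hM d S j e he z hz s hs, hNl j e he z hz s hs]
      exact kappa_le hN hO (pt_loc D (hk j) he hz s) ((hg e he).2 z hz) (pr _).cpl (S.mem j).1.le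
        (d.bdl (S.mem j) e he z hz s hs).1
  obtain ⟨E, Q', c', x', ξ'', vh, hξ⟩ := hS r D Q c x F m ph aff px pol S.pj
    (fun y => by
      have := z1 y
      rwa [Matrix.sub_mul, Matrix.smul_mul, Matrix.one_mul, sub_eq_zero] at this)
    fun e he z hz s hs k => ⟨by simpa using z2 e he z hz s hs k, z3 e he z hz s hs k⟩
  have hζ : ∀ y, ξ' y - ξ'' y = ζ y ∧ (ζ y).PosSemidef :=
    form_of hq ![ξ', ξ'', ζ] (fun b => b 0 - b 1 = b 2 ∧ (b 2).PosSemidef) fun e he z hz s hs => by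
      have pt := pt_loc D hg he hz s
      show M.repF ξ' e z - M.repF ξ'' e z = M.repF ζ e z ∧ (M.repF ζ e z).PosSemidef
      rw [f.gr e he z hz s hs, hξ e he z hz s hs, fζ.gr e he z hz s hs,
        ← (pr (s z)).gr_sub (D.reH _), funext (ha e he z hz s hs), (pr (s z)).gr_sub (D.reH _)]
      exact ⟨rfl, (hN ι r _ _ pt.ph pt.pH).2.2.1 _⟩
  refine ⟨m, E, Q', c', x', ξ'', v, S.pos, vh, powE fm ξ'' m v B t vh.cl
    (fun y => ⟨(hζ y).1 ▸ (hζ y).2, vh.psd y, (hR m E Q' x' ξ'' vh.pol vh.xi).1 y⟩)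
    (fun j => ⟨S.mem j, fun y => (hb _ (S.mem j) y).1⟩) S.lim S.ord ?_⟩
  simp only [fun y => (hζ y).1]
  have q := perp_loc hq hN hO hM d S fζ
  refine av_zero hg hμ hk (√(Fintype.card r)) 0 (fun j => (S.cont j).sqrt) (fun j => e1 _ (S.mem j))
    (fun j y => (q j y).1) (fun j => int_mono hg hμ (hk j)
      (continuous_const.mul (cont_trm (hk j) (hM r D _ ζ g fζ hg).1))
      ((continuous_const.mul (S.cont j).sqrt).add (continuous_const.mul (e1 _ (S.mem j))))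
      fun y => ?_) S.conv' S.en0
  rw [zero_mul, add_zero]
  exact (q j y).2

end Pool.Agent.Lib.MP_813db1_ag.VH.E1
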